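import Mathlib
import Pool.Agent.Run7.h28.HK.Root

/-!
# Project EC (helper28): the iteration of Newton with a fixed derivative, near a separable polynomial
-/

set_option autoImplicit false
set_option linter.unusedSectionVars false

open Polynomial

namespace Pool.Agent.Run7.h28.EC

variable {L : Type} [Field L]

/-- the value of the perturbed polynomial -/
noncomputable def fv (E : L[X]) (b : ℕ → L) (Z : L) : L :=
  E.eval Z + ∑ j ∈ Finset.range E.natDegree, b j * Z ^ j

/-- the iteration -/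
noncomputable def it (E : L[X]) (b : ℕ → L) (ρ : L) : ℕ → L
  | 0 => ρ
  | n + 1 => it E b ρ n - fv E b (it E b ρ n) / E.derivative.eval ρ

variable (av : AbsoluteValue L ℝ)

lemma av_natCast (n : ℕ) : av (n : L) ≤ n := by
  induction n with
  | zero => simp
  | succ n ih =>
    push_cast
    refine (av.add_le _ _).trans ?_
    rw [map_one]
    linarith

/-- differences of powers -/
lemma pow_sub_le {R : ℝ} (hR : 1 ≤ R) {Z Y : L} (hZ : av Z ≤ R) (hY : av Y ≤ R) (j : ℕ) :
    av (Z ^ j - Y ^ j) ≤ j * R ^ j * av (Z - Y) := by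
  induction j with
  | zero => simp
  | succ j ih =>
    have h1 : Z ^ (j + 1) - Y ^ (j + 1) = Z * (Z ^ j - Y ^ j) + Y ^ j * (Z - Y) := by ring
    rw [h1]
    refine (av.add_le _ _).trans ?_
    rw [map_mul, map_mul, map_pow]
    have h2 : av Y ^ j ≤ R ^ j := pow_le_pow_left₀ (av.nonneg _) hY j
    have h3 := av.nonneg (Z - Y)
    have hRj : 0 < R ^ j := pow_pos (by linarith) j
    calc av Z * av (Z ^ j - Y ^ j) + av Y ^ j * av (Z - Y) ≤
          R * (j * R ^ j * av (Z - Y)) + R ^ j * av (Z - Y) := by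
            refine add_le_add ?_ (mul_le_mul_of_nonneg_right h2 h3)
            exact mul_le_mul hZ ih (av.nonneg _) (by linarith)
      _ ≤ R * (j * R ^ j * av (Z - Y)) + R * (R ^ j * av (Z - Y)) := by
            have h4 : 0 ≤ R ^ j * av (Z - Y) := mul_nonneg hRj.le h3
            nlinarith
      _ = ((j + 1 : ℕ) : ℝ) * R ^ (j + 1) * av (Z - Y) := by
            push_cast
            ring

/-- the second difference -/
lemma pow_sub2_le {R : ℝ} (hR : 1 ≤ R) {Z Y ρ : L} (hZ : av Z ≤ R) (hY : av Y ≤ R)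
    (hρ : av ρ ≤ R) (j : ℕ) :
    av (Z ^ j - Y ^ j - (j * ρ ^ (j - 1)) * (Z - Y)) ≤
      j ^ 2 * R ^ j * (av (Z - Y) * (av (Z - ρ) + av (Y - ρ))) := by
  induction j with
  | zero => simp
  | succ j ih =>
    have h1 : Z ^ (j + 1) - Y ^ (j + 1) - (((j + 1 : ℕ) : L) * ρ ^ (j + 1 - 1)) * (Z - Y) =
        Z * (Z ^ j - Y ^ j - (j * ρ ^ (j - 1)) * (Z - Y)) +
          ((Z - ρ) * ((j * ρ ^ (j - 1)) * (Z - Y)) + (Y ^ j - ρ ^ j) * (Z - Y)) := by
      rw [Nat.add_sub_cancel]
      cases j with
      | zero => simp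
      | succ i =>
        rw [Nat.add_sub_cancel]
        push_cast
        ring
    rw [h1]
    have hD := av.nonneg (Z - Y)
    have hA := av.nonneg (Z - ρ)
    have hB := av.nonneg (Y - ρ)
    have hRj : 0 < R ^ j := pow_pos (by linarith) j
    have e1 : av ((j : L) * ρ ^ (j - 1)) ≤ j * R ^ j := by
      rw [map_mul, map_pow]
      refine mul_le_mul (av_natCast av j) ?_ (by positivity) (Nat.cast_nonneg _)
      exact (pow_le_pow_left₀ (av.nonneg _) hρ _).trans
        (pow_le_pow_right₀ hR (Nat.sub_le _ _))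
    have e2 := pow_sub_le av hR hY hρ j
    refine (av.add_le _ _).trans ?_
    refine (add_le_add le_rfl (av.add_le _ _)).trans ?_
    simp only [map_mul av Z _, map_mul av (Z - ρ) _, map_mul av (Y ^ j - ρ ^ j) _,
      map_mul av ((j : L) * ρ ^ (j - 1)) _]
    calc av Z * av (Z ^ j - Y ^ j - (j * ρ ^ (j - 1)) * (Z - Y)) +
          (av (Z - ρ) * (av ((j : L) * ρ ^ (j - 1)) * av (Z - Y)) +
            av (Y ^ j - ρ ^ j) * av (Z - Y)) ≤
        R * (j ^ 2 * R ^ j * (av (Z - Y) * (av (Z - ρ) + av (Y - ρ)))) +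
          (av (Z - ρ) * ((j * R ^ j) * av (Z - Y)) + (j * R ^ j * av (Y - ρ)) * av (Z - Y)) := by
            refine add_le_add (mul_le_mul hZ ih (av.nonneg _) (by linarith)) (add_le_add ?_ ?_)
            · exact mul_le_mul_of_nonneg_left (mul_le_mul_of_nonneg_right e1 hD) hA
            · exact mul_le_mul_of_nonneg_right e2 hD
      _ = R * (j ^ 2 * R ^ j * (av (Z - Y) * (av (Z - ρ) + av (Y - ρ)))) +
          1 * (j * R ^ j * (av (Z - Y) * (av (Z - ρ) + av (Y - ρ)))) := by ring
      _ ≤ R * (j ^ 2 * R ^ j * (av (Z - Y) * (av (Z - ρ) + av (Y - ρ)))) +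
          R * ((2 * j + 1) * R ^ j * (av (Z - Y) * (av (Z - ρ) + av (Y - ρ)))) := by
            have h4 : 0 ≤ av (Z - Y) * (av (Z - ρ) + av (Y - ρ)) := by positivity
            have h5 : (j : ℝ) * R ^ j ≤ (2 * j + 1) * R ^ j := by
              refine mul_le_mul_of_nonneg_right ?_ hRj.le
              have : (0 : ℝ) ≤ j := Nat.cast_nonneg j
              linarith
            refine add_le_add le_rfl (mul_le_mul hR ?_ ?_ (by linarith))
            · exact mul_le_mul_of_nonneg_right h5 h4
            · positivity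
      _ = ((j + 1 : ℕ) : ℝ) ^ 2 * R ^ (j + 1) * (av (Z - Y) * (av (Z - ρ) + av (Y - ρ))) := by
            push_cast
            ring

/-- the second difference of a polynomial -/
lemma sub2_le (E : L[X]) {q : ℕ} (hq : E.natDegree = q) {Q R : ℝ} (hQ : 0 ≤ Q)
    (hE : ∀ j, av (E.coeff j) ≤ Q) (hR : 1 ≤ R) (Z Y ρ : L) (hZ : av Z ≤ R)
    (hY : av Y ≤ R) (hρ : av ρ ≤ R) :
    av (E.eval Z - E.eval Y - E.derivative.eval ρ * (Z - Y)) ≤
      ((q + 1) * (Q * (q ^ 2 * R ^ q))) * (av (Z - Y) * (av (Z - ρ) + av (Y - ρ))) := by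
  have h0 : 0 ≤ av (Z - Y) * (av (Z - ρ) + av (Y - ρ)) :=
    mul_nonneg (av.nonneg _) (add_nonneg (av.nonneg _) (av.nonneg _))
  have h1 : E.eval Z - E.eval Y - E.derivative.eval ρ * (Z - Y) =
      ∑ j ∈ Finset.range (q + 1),
        E.coeff j * (Z ^ j - Y ^ j - (j * ρ ^ (j - 1)) * (Z - Y)) := by
    rw [eval_eq_sum_range, eval_eq_sum_range, hq]
    have h2 : E.derivative.eval ρ = ∑ j ∈ Finset.range (q + 1),
        E.coeff j * (j * ρ ^ (j - 1)) := by
      rw [derivative_eval, sum_over_range, hq]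
      · exact Finset.sum_congr rfl fun j _ => by ring
      · intro j
        simp
    rw [h2, Finset.sum_mul, ← Finset.sum_sub_distrib, ← Finset.sum_sub_distrib]
    exact Finset.sum_congr rfl fun j _ => by ring
  rw [h1]
  refine (av.sum_le _ _).trans ?_
  have h3 : ∀ j ∈ Finset.range (q + 1),
      av (E.coeff j * (Z ^ j - Y ^ j - (j * ρ ^ (j - 1)) * (Z - Y))) ≤
      (Q * (q ^ 2 * R ^ q)) * (av (Z - Y) * (av (Z - ρ) + av (Y - ρ))) := by
    intro j hj
    have hj' : j ≤ q := by
      have := Finset.mem_range.1 hj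
      omega
    have hjq : (j : ℝ) ≤ q := by exact_mod_cast hj'
    rw [map_mul, mul_assoc Q]
    refine mul_le_mul (hE j) ((pow_sub2_le av hR hZ hY hρ j).trans ?_) (av.nonneg _) hQ
    refine mul_le_mul_of_nonneg_right ?_ h0
    refine mul_le_mul (pow_le_pow_left₀ (Nat.cast_nonneg _) hjq 2)
      (pow_le_pow_right₀ hR hj') (by positivity) (by positivity)
  refine (Finset.sum_le_sum h3).trans (le_of_eq ?_)
  rw [Finset.sum_const, Finset.card_range, nsmul_eq_mul]
  push_cast
  ring

/-- the bound of the roots -/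
noncomputable def aR (q : ℕ) (Q : ℝ) : ℝ := 1 + q * (Q + 1)

/-- the constant of the first approximation -/
noncomputable def aA (q : ℕ) (Q : ℝ) : ℝ := q * aR q Q ^ q * (2 * Q) ^ (q - 1)

/-- the constant of the later approximations -/
noncomputable def aB (q : ℕ) (Q : ℝ) : ℝ :=
  (((q + 1) * (Q * (q ^ 2 * (aR q Q + aA q Q) ^ q))) * (3 * aA q Q) +
    q * (q * (aR q Q + aA q Q) ^ q)) * Q

/-- **The iteration of Newton.** -/
theorem newton (E : L[X]) (hE : E.Monic) {q : ℕ} (hq : 0 < q) (hdeg : E.natDegree = q)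
    (ρ : Fin q → L) (hprod : ∀ Y, E.eval Y = ∏ i, (Y - ρ i)) (Q : ℝ) (hQ : 1 ≤ Q)
    (hQ1 : ∀ j, av (E.coeff j) ≤ Q) (hQ2 : ∀ i j, i ≠ j → 1 ≤ Q * av (ρ i - ρ j))
    (hQ3 : ∀ i, 1 ≤ Q * av (E.derivative.eval (ρ i))) (b : ℕ → L) (θ : ℝ) (hθ : 0 ≤ θ)
    (hAθ : (1 + aA q Q + aB q Q) * θ ≤ 1) (hb : ∀ j < q, av (b j) ≤ θ) (Y : L)
    (hY : fv E b Y = 0) :
    ∃ i, ∀ n, av (it E b (ρ i) n - Y) ≤ ((1 + aA q Q + aB q Q) * θ) ^ (n + 1) := by
  classical
  have hq1 : (1 : ℝ) ≤ q := by exact_mod_cast hq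
  have hq0 : (0 : ℝ) < q := by linarith
  -- the bound of the roots
  obtain ⟨R, hR⟩ : ∃ R : ℝ, R = aR q Q := ⟨_, rfl⟩
  obtain ⟨A2, hA2⟩ : ∃ A2 : ℝ, A2 = aA q Q := ⟨_, rfl⟩
  obtain ⟨A3, hA3⟩ : ∃ A3 : ℝ, A3 = aB q Q := ⟨_, rfl⟩
  have hA2' : A2 = q * R ^ q * (2 * Q) ^ (q - 1) := by rw [hA2, hR]; rfl
  have hA3' : A3 = (((q + 1) * (Q * (q ^ 2 * (R + A2) ^ q))) * (3 * A2) +
    q * (q * (R + A2) ^ q)) * Q := by rw [hA3, hR, hA2]; rfl
  have hR1 : 1 ≤ R := by
    rw [hR, aR]
    have : 0 ≤ (q : ℝ) * (Q + 1) := by positivity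
    linarith
  have hA20 : 0 ≤ A2 := by
    rw [hA2']
    positivity
  have hA30 : 0 ≤ A3 := by
    rw [hA3']
    positivity
  rw [← hA2, ← hA3] at hAθ ⊢
  clear hA2 hA3
  have cauchy : ∀ (b : ℕ → L), (∀ j < q, av (b j) ≤ 1) → ∀ Y, fv E b Y = 0 → av Y ≤ R := by
    intro b hb Y hY
    by_contra hcon
    push Not at hcon
    have hY1 : 1 ≤ av Y := by linarith
    have h1 : Y ^ q = -∑ j ∈ Finset.range q, (E.coeff j + b j) * Y ^ j := by
      have h2 : fv E b Y = Y ^ q + ∑ j ∈ Finset.range q, (E.coeff j + b j) * Y ^ j := by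
        unfold fv
        rw [eval_eq_sum_range, hdeg, Finset.sum_range_succ]
        have h3 : E.coeff q = 1 := by rw [← hdeg]; exact hE.coeff_natDegree
        rw [h3, one_mul, add_comm _ (Y ^ q), add_assoc, ← Finset.sum_add_distrib]
        congr 1
        exact Finset.sum_congr rfl fun j _ => by ring
      rw [h2] at hY
      linear_combination hY
    have h2 : av Y ^ q ≤ (q * (Q + 1)) * av Y ^ (q - 1) := by
      rw [← map_pow, h1, map_neg_eq_map]
      refine (av.sum_le _ _).trans ?_
      calc ∑ j ∈ Finset.range q, av ((E.coeff j + b j) * Y ^ j) ≤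
            ∑ _j ∈ Finset.range q, (Q + 1) * av Y ^ (q - 1) := by
              refine Finset.sum_le_sum fun j hj => ?_
              rw [map_mul, map_pow]
              have hj' := Finset.mem_range.1 hj
              refine mul_le_mul ((av.add_le _ _).trans (add_le_add (hQ1 j) (hb j hj')))
                (pow_le_pow_right₀ hY1 (by omega)) (by positivity) (by positivity)
        _ = (q * (Q + 1)) * av Y ^ (q - 1) := by
              rw [Finset.sum_const, Finset.card_range, nsmul_eq_mul]
              ring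
    have h3 : av Y ^ q = av Y * av Y ^ (q - 1) := by
      rw [← pow_succ']
      congr 1
      omega
    rw [h3] at h2
    have h4 := le_of_mul_le_mul_right h2 (pow_pos (by linarith) _)
    rw [hR, aR] at hcon
    linarith
  have hrootR : ∀ i, av (ρ i) ≤ R := by
    intro i
    refine cauchy (fun _ => 0) (fun j _ => by rw [map_zero]; exact zero_le_one) (ρ i) ?_
    unfold fv
    rw [hprod, Finset.prod_eq_zero (Finset.mem_univ i) (sub_self _)]
    simp
  -- closeness to a root
  have hne : Nonempty (Fin q) := ⟨⟨0, hq⟩⟩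
  have hθ1 : θ ≤ 1 := by
    have h1 : 1 * θ ≤ (1 + A2 + A3) * θ := mul_le_mul_of_nonneg_right (by linarith) hθ
    linarith
  have hA2θ : A2 * θ ≤ 1 := by
    have h1 : A2 * θ ≤ (1 + A2 + A3) * θ := mul_le_mul_of_nonneg_right (by linarith) hθ
    linarith
  have hA3θ : A3 * θ ≤ 1 := by
    have h1 : A3 * θ ≤ (1 + A2 + A3) * θ := mul_le_mul_of_nonneg_right (by linarith) hθ
    linarith
  have hYR := cauchy b (fun j hj => (hb j hj).trans hθ1) Y hY
  have close : ∃ i, av (Y - ρ i) ≤ A2 * θ := by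
    have h1 : av (E.eval Y) ≤ q * R ^ q * θ := by
      have h2 : E.eval Y = -∑ j ∈ Finset.range q, b j * Y ^ j := by
        unfold fv at hY
        rw [hdeg] at hY
        linear_combination hY
      rw [h2, map_neg_eq_map]
      refine (av.sum_le _ _).trans ?_
      calc ∑ j ∈ Finset.range q, av (b j * Y ^ j) ≤ ∑ _j ∈ Finset.range q, θ * R ^ q := by
            refine Finset.sum_le_sum fun j hj => ?_
            have hj' := Finset.mem_range.1 hj
            rw [map_mul, map_pow]
            refine mul_le_mul (hb j hj') ?_ (by positivity) hθ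
            exact (pow_le_pow_left₀ (av.nonneg _) hYR _).trans
              (pow_le_pow_right₀ hR1 hj'.le)
        _ = q * R ^ q * θ := by
            rw [Finset.sum_const, Finset.card_range, nsmul_eq_mul]
            ring
    obtain ⟨i, -, hmin⟩ := Finset.exists_min_image Finset.univ (fun i => av (Y - ρ i))
      ⟨Classical.choice hne, Finset.mem_univ _⟩
    refine ⟨i, ?_⟩
    rw [hprod, map_prod, ← Finset.mul_prod_erase Finset.univ _ (Finset.mem_univ i)] at h1
    have h2 : ∏ _j ∈ Finset.univ.erase i, (1 / (2 * Q)) ≤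
        ∏ j ∈ Finset.univ.erase i, av (Y - ρ j) := by
      refine Finset.prod_le_prod (fun w _ => by positivity) fun j hj => ?_
      have hj1 := Finset.ne_of_mem_erase hj
      have h3 := hmin j (Finset.mem_univ _)
      have h4 : av (ρ i - ρ j) ≤ av (Y - ρ j) + av (Y - ρ i) := by
        have h5 : ρ i - ρ j = (Y - ρ j) - (Y - ρ i) := by ring
        rw [h5]
        exact av.sub_le_add _ _
      have h5 := hQ2 i j hj1.symm
      rw [div_le_iff₀ (by positivity)]
      have h6 : Q * av (ρ i - ρ j) ≤ Q * (2 * av (Y - ρ j)) :=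
        mul_le_mul_of_nonneg_left (by linarith) (by linarith)
      linarith
    rw [Finset.prod_const, Finset.card_erase_of_mem (Finset.mem_univ _), Finset.card_univ,
      Fintype.card_fin] at h2
    have h3 : av (Y - ρ i) * (1 / (2 * Q)) ^ (q - 1) ≤ q * R ^ q * θ :=
      (mul_le_mul_of_nonneg_left h2 (av.nonneg _)).trans h1
    have h4 : (1 / (2 * Q)) ^ (q - 1) * (2 * Q) ^ (q - 1) = 1 := by
      rw [← mul_pow, one_div, inv_mul_cancel₀ (by positivity), one_pow]
    have h5 : 0 ≤ (2 * Q) ^ (q - 1) := by positivity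
    calc av (Y - ρ i) = av (Y - ρ i) * (1 / (2 * Q)) ^ (q - 1) * (2 * Q) ^ (q - 1) := by
          rw [mul_assoc, h4, mul_one]
      _ ≤ q * R ^ q * θ * (2 * Q) ^ (q - 1) := mul_le_mul_of_nonneg_right h3 h5
      _ = A2 * θ := by rw [hA2']; ring
  obtain ⟨i, hclose⟩ := close
  refine ⟨i, ?_⟩
  have hρR := hrootR i
  have key : ∀ n, av (it E b (ρ i) n - Y) ≤ A2 * θ * (A3 * θ) ^ n := by
    intro n
    induction n with
    | zero =>
      rw [pow_zero, mul_one]
      show av (ρ i - Y) ≤ _
      rw [← map_neg_eq_map, neg_sub]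
      exact hclose
    | succ n ih =>
      obtain ⟨Z, hZ⟩ : ∃ Z : L, Z = it E b (ρ i) n := ⟨_, rfl⟩
      rw [← hZ] at ih
      have hd : av (Z - Y) ≤ A2 * θ :=
        ih.trans (mul_le_of_le_one_right (by positivity) (pow_le_one₀ (by positivity) hA3θ))
      have hZR : av Z ≤ R + A2 := by
        have h1 : Z = (Z - Y) + Y := by ring
        rw [h1]
        refine (av.add_le _ _).trans ?_
        have h2 : A2 * θ ≤ A2 * 1 := mul_le_mul_of_nonneg_left hθ1 hA20
        linarith
      have hZρ : av (Z - ρ i) ≤ 2 * (A2 * θ) := by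
        have h1 : Z - ρ i = (Z - Y) + (Y - ρ i) := by ring
        rw [h1]
        refine (av.add_le _ _).trans ?_
        linarith
      have h1 := sub2_le av E hdeg (by linarith : (0 : ℝ) ≤ Q) hQ1 (R := R + A2) (by linarith)
        Z Y (ρ i) hZR (by linarith) (by linarith)
      obtain ⟨C3, hC3⟩ : ∃ C3 : ℝ, C3 = (q + 1) * (Q * (q ^ 2 * (R + A2) ^ q)) := ⟨_, rfl⟩
      obtain ⟨C4, hC4⟩ : ∃ C4 : ℝ, C4 = q * (q * (R + A2) ^ q) := ⟨_, rfl⟩
      have hC30 : 0 ≤ C3 := by rw [hC3]; positivity
      rw [← hC3] at h1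
      have h2 : av (∑ j ∈ Finset.range q, b j * (Z ^ j - Y ^ j)) ≤ C4 * θ * av (Z - Y) := by
        refine (av.sum_le _ _).trans ?_
        calc ∑ j ∈ Finset.range q, av (b j * (Z ^ j - Y ^ j)) ≤
              ∑ _j ∈ Finset.range q, θ * (q * (R + A2) ^ q * av (Z - Y)) := by
                refine Finset.sum_le_sum fun j hj => ?_
                have hj' := Finset.mem_range.1 hj
                have hjq : (j : ℝ) ≤ q := by exact_mod_cast hj'.le
                rw [map_mul]
                refine mul_le_mul (hb j hj')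
                  ((pow_sub_le av (by linarith) hZR (by linarith) j).trans ?_) (av.nonneg _) hθ
                refine mul_le_mul_of_nonneg_right ?_ (av.nonneg _)
                exact mul_le_mul hjq (pow_le_pow_right₀ (by linarith) hj'.le) (by positivity)
                  (by positivity)
          _ = C4 * θ * av (Z - Y) := by
                rw [Finset.sum_const, Finset.card_range, nsmul_eq_mul, hC4]
                ring
      have hpos : 0 < av (E.derivative.eval (ρ i)) := by
        have h3 := hQ3 i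
        by_contra h4
        push Not at h4
        nlinarith
      have hne : E.derivative.eval (ρ i) ≠ 0 := fun h => by
        rw [h, map_zero] at hpos
        exact lt_irrefl _ hpos
      have h3 : it E b (ρ i) (n + 1) - Y =
          -((E.eval Z - E.eval Y - E.derivative.eval (ρ i) * (Z - Y)) +
          ∑ j ∈ Finset.range q, b j * (Z ^ j - Y ^ j)) / E.derivative.eval (ρ i) := by
        have h0 : it E b (ρ i) (n + 1) = Z - fv E b Z / E.derivative.eval (ρ i) := by
          rw [hZ]
          rfl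
        rw [h0]
        have h4 : fv E b Z = fv E b Z - fv E b Y := by rw [hY, sub_zero]
        have h5 : fv E b Z - fv E b Y = E.eval Z - E.eval Y +
            ∑ j ∈ Finset.range q, b j * (Z ^ j - Y ^ j) := by
          unfold fv
          rw [hdeg]
          simp only [mul_sub, Finset.sum_sub_distrib]
          ring
        rw [h4, h5]
        generalize E.eval Z = a1
        generalize E.eval Y = a2
        generalize ∑ j ∈ Finset.range q, b j * (Z ^ j - Y ^ j) = a3
        generalize E.derivative.eval (ρ i) = a4 at hne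
        rw [eq_div_iff hne, sub_mul, sub_mul, div_mul_cancel₀ _ hne]
        ring
      rw [h3, map_div₀, map_neg_eq_map, div_le_iff₀ hpos]
      have h4 : av ((E.eval Z - E.eval Y - E.derivative.eval (ρ i) * (Z - Y)) +
          ∑ j ∈ Finset.range q, b j * (Z ^ j - Y ^ j)) ≤
          (C3 * (3 * A2) + C4) * θ * av (Z - Y) := by
        refine (av.add_le _ _).trans ?_
        have h5 : av (Z - Y) * (av (Z - ρ i) + av (Y - ρ i)) ≤ av (Z - Y) * (3 * (A2 * θ)) :=
          mul_le_mul_of_nonneg_left (by linarith) (av.nonneg _)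
        have h6 := mul_le_mul_of_nonneg_left h5 hC30
        have h7 : (C3 * (3 * A2) + C4) * θ * av (Z - Y) =
            C3 * (av (Z - Y) * (3 * (A2 * θ))) + C4 * θ * av (Z - Y) := by ring
        rw [h7]
        exact add_le_add (h1.trans h6) h2
      refine h4.trans ?_
      have hC0 : 0 ≤ C3 * (3 * A2) + C4 := by
        have : 0 ≤ C4 := by rw [hC4]; positivity
        positivity
      have h5 : A3 = (C3 * (3 * A2) + C4) * Q := by rw [hA3', hC3, hC4]
      have h6 := hQ3 i
      calc (C3 * (3 * A2) + C4) * θ * av (Z - Y) ≤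
            (C3 * (3 * A2) + C4) * θ * (A2 * θ * (A3 * θ) ^ n) * 1 := by
              rw [mul_one]
              exact mul_le_mul_of_nonneg_left ih (by positivity)
        _ ≤ (C3 * (3 * A2) + C4) * θ * (A2 * θ * (A3 * θ) ^ n) *
              (Q * av (E.derivative.eval (ρ i))) :=
              mul_le_mul_of_nonneg_left h6 (by positivity)
        _ = A2 * θ * (A3 * θ) ^ (n + 1) * av (E.derivative.eval (ρ i)) := by
              rw [pow_succ, h5]
              ring
  intro n
  refine (key n).trans ?_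
  rw [pow_succ' ((1 + A2 + A3) * θ)]
  have h1 : A2 * θ ≤ (1 + A2 + A3) * θ := mul_le_mul_of_nonneg_right (by linarith) hθ
  have h2 : A3 * θ ≤ (1 + A2 + A3) * θ := mul_le_mul_of_nonneg_right (by linarith) hθ
  exact mul_le_mul h1 (pow_le_pow_left₀ (by positivity) h2 _) (by positivity) (by positivity)

end Pool.Agent.Run7.h28.EC
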