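import Mathlib
import Pool.Agent.Run7.h28.HK.One
import Pool.Agent.Run7.h28.EC.Newton

/-!
# Project EC (helper28): the ordinate of a point with sparse coefficients is a sum of units
-/

set_option autoImplicit false
set_option linter.unusedSectionVars false

open Filter Topology

namespace Pool.Agent.Run7.h28.EC

open NumberField IsDedekindDomain Height Module
open Pool.Agent.W180.OP (Pl av wt nrm le_nrm nrm_pos wt_nonneg exists_nrm nrm_nonneg)
open Pool.Agent.N750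
open Pool.Agent.Run7.h28.HK

variable {K : Type} [Field K] [NumberField K] {α : Type} {𝓕 : Ultrafilter α} {H : α → ℝ}

lemma one_le_wt (p : Pl K) : 1 ≤ wt p := by
  rcases p with w | v
  · show (1 : ℝ) ≤ (w.mult : ℝ)
    exact_mod_cast w.mult_pos
  · show (1 : ℝ) ≤ 1
    exact le_rfl

/-- the absolute value is bounded by the height -/
lemma av_le_exp (v : Pl K) (z : K) : av v z ≤ Real.exp (logHeight₁ z) := by
  by_cases h0 : z = 0
  · rw [h0, map_zero]
    exact (Real.exp_pos _).le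
  have h1 : 0 < av v z := (av v).pos_iff.2 h0
  rw [← Real.exp_log h1]
  refine Real.exp_le_exp.2 ?_
  have h2 := local_abs z v
  rw [abs_mul, abs_of_nonneg (wt_nonneg v)] at h2
  have h3 := le_abs_self (Real.log (av v z))
  have h4 : |Real.log (av v z)| ≤ wt v * |Real.log (av v z)| :=
    le_mul_of_one_le_left (abs_nonneg _) (one_le_wt v)
  linarith

lemma mdr_av {a : α → K} (ha : Mdr 𝓕 H a) (v : Pl K) :
    ∃ C : ℝ, ∀ᶠ t in (𝓕 : Filter α), av v (a t) ≤ Real.exp (C * H t) := by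
  obtain ⟨C, hC⟩ := ha
  exact ⟨C, hC.mono fun t ht => (av_le_exp v _).trans (Real.exp_le_exp.2 ht)⟩

/-! ### Functions of subexponential growth -/

/-- nonnegative functions of subexponential growth -/
def SubE (𝓕 : Ultrafilter α) (H : α → ℝ) (f : α → ℝ) : Prop :=
  (∀ t, 0 ≤ f t) ∧ ∀ ε : ℝ, 0 < ε → ∀ᶠ t in (𝓕 : Filter α), f t ≤ Real.exp (ε * H t)

lemma SubE.const (hH : Tendsto H 𝓕 atTop) {c : ℝ} (hc : 0 ≤ c) : SubE 𝓕 H (fun _ => c) := by
  refine ⟨fun _ => hc, fun ε hε => ?_⟩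
  filter_upwards [hH_le hH (Real.log (c + 1) / ε)] with t ht
  rw [div_le_iff₀ hε] at ht
  calc c ≤ c + 1 := by linarith
    _ = Real.exp (Real.log (c + 1)) := (Real.exp_log (by linarith)).symm
    _ ≤ Real.exp (ε * H t) := Real.exp_le_exp.2 (by linarith)

lemma SubE.mul {f g : α → ℝ} (hf : SubE 𝓕 H f) (hg : SubE 𝓕 H g) :
    SubE 𝓕 H (fun t => f t * g t) := by
  refine ⟨fun t => mul_nonneg (hf.1 t) (hg.1 t), fun ε hε => ?_⟩
  filter_upwards [hf.2 (ε / 2) (by positivity), hg.2 (ε / 2) (by positivity)] with t h1 h2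
  calc f t * g t ≤ Real.exp (ε / 2 * H t) * Real.exp (ε / 2 * H t) :=
        mul_le_mul h1 h2 (hg.1 t) (Real.exp_pos _).le
    _ = Real.exp (ε * H t) := by
        rw [← Real.exp_add]
        congr 1
        ring

lemma SubE.add (hH : Tendsto H 𝓕 atTop) {f g : α → ℝ} (hf : SubE 𝓕 H f) (hg : SubE 𝓕 H g) :
    SubE 𝓕 H (fun t => f t + g t) := by
  refine ⟨fun t => add_nonneg (hf.1 t) (hg.1 t), fun ε hε => ?_⟩
  filter_upwards [hf.2 (ε / 2) (by positivity), hg.2 (ε / 2) (by positivity),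
    (SubE.const hH (show (0 : ℝ) ≤ 2 by norm_num)).2 (ε / 2) (by positivity)] with t h1 h2 h3
  calc f t + g t ≤ 2 * Real.exp (ε / 2 * H t) := by linarith
    _ ≤ Real.exp (ε / 2 * H t) * Real.exp (ε / 2 * H t) :=
        mul_le_mul_of_nonneg_right h3 (Real.exp_pos _).le
    _ = Real.exp (ε * H t) := by
        rw [← Real.exp_add]
        congr 1
        ring

lemma SubE.pow (hH : Tendsto H 𝓕 atTop) {f : α → ℝ} (hf : SubE 𝓕 H f) (n : ℕ) :
    SubE 𝓕 H (fun t => f t ^ n) := by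
  induction n with
  | zero => simpa only [pow_zero] using SubE.const hH (zero_le_one (α := ℝ))
  | succ n ih => simpa only [pow_succ] using ih.mul hf

lemma SubE.sum (hH : Tendsto H 𝓕 atTop) {ι : Type} (A : Finset ι) (f : ι → α → ℝ)
    (hf : ∀ i ∈ A, SubE 𝓕 H (f i)) : SubE 𝓕 H (fun t => ∑ i ∈ A, f i t) := by
  classical
  induction A using Finset.induction_on with
  | empty => simpa only [Finset.sum_empty] using SubE.const hH (le_refl (0 : ℝ))
  | insert a A ha ih =>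
    simp only [Finset.sum_insert ha]
    exact (hf a (Finset.mem_insert_self _ _)).add hH
      (ih fun i hi => hf i (Finset.mem_insert_of_mem hi))

lemma SubE.slow {a : α → K} (ha : Slow 𝓕 H a) (v : Pl K) : SubE 𝓕 H (fun t => av v (a t)) :=
  ⟨fun _ => (av v).nonneg _, fun _ hε => slow_le ha v hε⟩

lemma SubE.aR (hH : Tendsto H 𝓕 atTop) (q : ℕ) {Q : α → ℝ} (hQ : SubE 𝓕 H Q) :
    SubE 𝓕 H (fun t => aR q (Q t)) := by
  unfold EC.aR
  exact (SubE.const hH zero_le_one).add hH ((SubE.const hH (Nat.cast_nonneg q)).mul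
    (hQ.add hH (SubE.const hH zero_le_one)))

lemma SubE.aA (hH : Tendsto H 𝓕 atTop) (q : ℕ) {Q : α → ℝ} (hQ : SubE 𝓕 H Q) :
    SubE 𝓕 H (fun t => aA q (Q t)) := by
  unfold EC.aA
  exact ((SubE.const hH (Nat.cast_nonneg q)).mul ((SubE.aR hH q hQ).pow hH q)).mul
    (((SubE.const hH (show (0 : ℝ) ≤ 2 by norm_num)).mul hQ).pow hH (q - 1))

lemma SubE.aB (hH : Tendsto H 𝓕 atTop) (q : ℕ) {Q : α → ℝ} (hQ : SubE 𝓕 H Q) :
    SubE 𝓕 H (fun t => aB q (Q t)) := by
  unfold EC.aB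
  have h1 := ((SubE.aR hH q hQ).add hH (SubE.aA hH q hQ)).pow hH q
  have hq := SubE.const (𝓕 := 𝓕) hH (c := (q : ℝ)) (Nat.cast_nonneg q)
  exact ((((SubE.const hH (c := (q : ℝ) + 1) (by positivity)).mul
    (hQ.mul ((hq.pow hH 2).mul h1))).mul
    ((SubE.const hH (show (0 : ℝ) ≤ 3 by norm_num)).mul (SubE.aA hH q hQ))).add hH
    (hq.mul (hq.mul h1))).mul hQ

variable {L : Type} [Field L] [NumberField L] [IsGalois ℚ L]

/-- **The ordinate is a sum of units.** -/
theorem core (hH : Tendsto H 𝓕 atTop) (Γ : Subgroup Lˣ)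
    (hΓσ : ∀ σ : L ≃ₐ[ℚ] L, ∀ g ∈ Γ, Units.map (σ : L →* L) g ∈ Γ) (S : Finset (Pl L))
    (hS : ∀ w : InfinitePlace L, (Sum.inl w : Pl L) ∈ S) (hΓS : ∀ g ∈ Γ, IsU S (g : L))
    (v0 : InfinitePlace L) {q : ℕ} (hq : 0 < q) (E : α → Polynomial L) (hE : ∀ t, (E t).Monic)
    (hdeg : ∀ t, (E t).natDegree = q) (hEs : ∀ j, Slow 𝓕 H (fun t => (E t).coeff j))
    (ρ : Fin q → α → L) (hρs : ∀ i, Slow 𝓕 H (ρ i))
    (hprod : ∀ t Y, (E t).eval Y = ∏ i, (Y - ρ i t)) (hinj : ∀ t i j, i ≠ j → ρ i t ≠ ρ j t)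
    (hder : ∀ t i, (E t).derivative.eval (ρ i t) ≠ 0) (W : α → Lˣ) (hW : ∀ t, W t ∈ Γ)
    (hWm : Mdr 𝓕 H (fun t => (W t : L))) (A : ℕ → α → L)
    (hA : ∀ j < q, Sp (slowF 𝓕 L H hH) (PG 𝓕 H Γ) (mk 𝓕 (A j))) (y : α → ℤ)
    (hy : Mdr 𝓕 H (fun t => (y t : L)))
    (heq : ∀ᶠ t in (𝓕 : Filter α), (y t : L) ^ q +
      ∑ j ∈ Finset.range q, A j t * (y t : L) ^ j = 0) (c : ℝ) (hc : 0 < c)
    (happ : ∀ j < q, ∀ᶠ t in (𝓕 : Filter α),
      av (Sum.inl v0 : Pl L) (A j t * ((W t : L)⁻¹) ^ (q - j) - (E t).coeff j) ≤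
        Real.exp (-(c * H t))) :
    Sp (slowF 𝓕 L H hH) (PU 𝓕 H S) (mk 𝓕 (fun t => (y t : L))) := by
  classical
  set F := slowF 𝓕 L H hH with hF
  have hmul : ∀ a b : Gm 𝓕 L, PG 𝓕 H Γ a → PG 𝓕 H Γ b → PG 𝓕 H Γ (a * b) := fun _ _ => PG.mul
  obtain ⟨b, hb⟩ : ∃ b : α → ℕ → L,
      b = fun t j => A j t * ((W t : L)⁻¹) ^ (q - j) - (E t).coeff j := ⟨_, rfl⟩
  -- the value of the perturbed polynomial
  have hfv : ∀ t Z, fv (E t) (b t) Z = Z ^ q +
      ∑ j ∈ Finset.range q, A j t * ((W t : L)⁻¹) ^ (q - j) * Z ^ j := by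
    intro t Z
    unfold fv
    rw [Polynomial.eval_eq_sum_range, hdeg t, Finset.sum_range_succ]
    have h3 : (E t).coeff q = 1 := by rw [← hdeg t]; exact (hE t).coeff_natDegree
    rw [h3, one_mul, add_comm _ (Z ^ q), add_assoc, ← Finset.sum_add_distrib, hb]
    congr 1
    exact Finset.sum_congr rfl fun j _ => by ring
  -- the root
  have hroot : ∀ᶠ t in (𝓕 : Filter α), fv (E t) (b t) ((y t : L) * (W t : L)⁻¹) = 0 := by
    filter_upwards [heq] with t ht
    have hW0 : (W t : L) ≠ 0 := (W t).ne_zero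
    rw [hfv]
    have h1 : ((y t : L) * (W t : L)⁻¹) ^ q + ∑ j ∈ Finset.range q, A j t *
        ((W t : L)⁻¹) ^ (q - j) * ((y t : L) * (W t : L)⁻¹) ^ j =
        ((y t : L) ^ q + ∑ j ∈ Finset.range q, A j t * (y t : L) ^ j) * ((W t : L)⁻¹) ^ q := by
      rw [add_mul, mul_pow, Finset.sum_mul]
      congr 1
      refine Finset.sum_congr rfl fun j hj => ?_
      have h2 : q = (q - j) + j := by
        have := Finset.mem_range.1 hj
        omega
      conv_rhs => rw [h2, pow_add]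
      rw [mul_pow]
      have h3 : q - j + j - j = q - j := by omega
      ring
    rw [h1, ht, zero_mul]
  -- the derivatives at the roots are slow
  have hders : ∀ i, Slow 𝓕 H (fun t => (E t).derivative.eval (ρ i t)) := by
    intro i
    have h1 : (fun t => (E t).derivative.eval (ρ i t)) = fun t => ∑ j ∈ Finset.range (q + 1),
        (E t).coeff j * ((j : L) * ρ i t ^ (j - 1)) := by
      funext t
      rw [Polynomial.derivative_eval, Polynomial.sum_over_range, hdeg t]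
      · exact Finset.sum_congr rfl fun j _ => by ring
      · intro j
        simp
    rw [h1]
    have h2 : (mk 𝓕 (fun t => ∑ j ∈ Finset.range (q + 1),
        (E t).coeff j * ((j : L) * ρ i t ^ (j - 1)))) ∈ F := by
      have h3 : (fun t => ∑ j ∈ Finset.range (q + 1),
        (E t).coeff j * ((j : L) * ρ i t ^ (j - 1))) = ∑ j ∈ Finset.range (q + 1),
          (fun t => (E t).coeff j) * ((fun _ => (j : L)) * (ρ i) ^ (j - 1)) := by
        funext t
        rw [Finset.sum_apply]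
        rfl
      rw [h3, map_sum]
      refine sum_mem fun j _ => ?_
      rw [map_mul, map_mul, map_pow]
      exact mul_mem (mk_slow.2 (hEs j)) (mul_mem (mk_slow.2 (slow_const hH _))
        (pow_mem (mk_slow.2 (hρs i)) _))
    exact mk_slow.1 h2
  -- the quantity `Q`
  obtain ⟨Q, hQ⟩ : ∃ Q : α → ℝ, Q = fun t => 1 +
      ((∑ j ∈ Finset.range (q + 1), av (Sum.inl v0 : Pl L) ((E t).coeff j)) +
      ((∑ i, ∑ j, av (Sum.inl v0 : Pl L) ((ρ i t - ρ j t)⁻¹)) +
      ∑ i, av (Sum.inl v0 : Pl L) (((E t).derivative.eval (ρ i t))⁻¹))) := ⟨_, rfl⟩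
  have hs1 : ∀ t, 0 ≤ ∑ j ∈ Finset.range (q + 1), av (Sum.inl v0 : Pl L) ((E t).coeff j) :=
    fun t => Finset.sum_nonneg fun _ _ => (av _).nonneg _
  have hs2 : ∀ t, 0 ≤ ∑ i, ∑ j, av (Sum.inl v0 : Pl L) ((ρ i t - ρ j t)⁻¹) :=
    fun t => Finset.sum_nonneg fun _ _ => Finset.sum_nonneg fun _ _ => (av _).nonneg _
  have hs3 : ∀ t, 0 ≤ ∑ i, av (Sum.inl v0 : Pl L) (((E t).derivative.eval (ρ i t))⁻¹) :=
    fun t => Finset.sum_nonneg fun _ _ => (av _).nonneg _
  have hQs : SubE 𝓕 H Q := by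
    rw [hQ]
    refine (SubE.const hH zero_le_one).add hH ((SubE.sum hH _ _ fun j _ =>
      SubE.slow (hEs j) _).add hH ((SubE.sum hH _ _ fun i _ => SubE.sum hH _ _ fun j _ =>
      SubE.slow (a := fun t => (ρ i t - ρ j t)⁻¹) ?_ _).add hH
      (SubE.sum hH _ _ fun i _ => SubE.slow (hders i).inv _)))
    have h1 : Slow 𝓕 H (fun t => ρ i t - ρ j t) := by
      have h2 := (hρs i).add hH (hρs j).neg
      simpa only [← sub_eq_add_neg] using h2
    exact h1.inv
  have hQ1 : ∀ t, 1 ≤ Q t := fun t => by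
    rw [hQ]
    simp only
    linarith [hs1 t, hs2 t, hs3 t]
  have hQc : ∀ t j, av (Sum.inl v0 : Pl L) ((E t).coeff j) ≤ Q t := by
    intro t j
    by_cases hj : j ∈ Finset.range (q + 1)
    · have h1 := Finset.single_le_sum (f := fun j => av (Sum.inl v0 : Pl L) ((E t).coeff j))
        (fun _ _ => (av _).nonneg _) hj
      have h2 : av (Sum.inl v0 : Pl L) ((E t).coeff j) ≤
        ∑ j ∈ Finset.range (q + 1), av (Sum.inl v0 : Pl L) ((E t).coeff j) := h1
      rw [hQ]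
      simp only
      linarith [hs1 t, hs2 t, hs3 t]
    · rw [Polynomial.coeff_eq_zero_of_natDegree_lt, map_zero]
      · linarith [hQ1 t]
      · rw [hdeg t]
        rw [Finset.mem_range] at hj
        omega
  have hQd : ∀ t i j, i ≠ j → 1 ≤ Q t * av (Sum.inl v0 : Pl L) (ρ i t - ρ j t) := by
    intro t i j hij
    have hne : ρ i t - ρ j t ≠ 0 := sub_ne_zero.2 (hinj t i j hij)
    have hpos : 0 < av (Sum.inl v0 : Pl L) (ρ i t - ρ j t) := (av _).pos_iff.2 hne
    rw [← inv_le_iff_one_le_mul₀ hpos, ← map_inv₀]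
    have h1 := Finset.single_le_sum (f := fun j => av (Sum.inl v0 : Pl L) ((ρ i t - ρ j t)⁻¹))
        (fun _ _ => (av _).nonneg _) (Finset.mem_univ j)
    have h2 := Finset.single_le_sum (f := fun i => ∑ j, av (Sum.inl v0 : Pl L)
      ((ρ i t - ρ j t)⁻¹)) (fun _ _ => Finset.sum_nonneg fun _ _ => (av _).nonneg _)
      (Finset.mem_univ i)
    have h3 : av (Sum.inl v0 : Pl L) ((ρ i t - ρ j t)⁻¹) ≤
        ∑ i, ∑ j, av (Sum.inl v0 : Pl L) ((ρ i t - ρ j t)⁻¹) := h1.trans h2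
    rw [hQ]
    simp only
    linarith [hs1 t, hs2 t, hs3 t]
  have hQe : ∀ t i, 1 ≤ Q t * av (Sum.inl v0 : Pl L) ((E t).derivative.eval (ρ i t)) := by
    intro t i
    have hpos : 0 < av (Sum.inl v0 : Pl L) ((E t).derivative.eval (ρ i t)) :=
      (av _).pos_iff.2 (hder t i)
    rw [← inv_le_iff_one_le_mul₀ hpos, ← map_inv₀]
    have h1 := Finset.single_le_sum (f := fun i => av (Sum.inl v0 : Pl L)
      (((E t).derivative.eval (ρ i t))⁻¹)) (fun _ _ => (av _).nonneg _) (Finset.mem_univ i)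
    have h3 : av (Sum.inl v0 : Pl L) (((E t).derivative.eval (ρ i t))⁻¹) ≤
        ∑ i, av (Sum.inl v0 : Pl L) (((E t).derivative.eval (ρ i t))⁻¹) := h1
    rw [hQ]
    simp only
    linarith [hs1 t, hs2 t, hs3 t]
  -- the constant of the iteration
  obtain ⟨A0, hA0⟩ : ∃ A0 : α → ℝ, A0 = fun t => 1 + aA q (Q t) + aB q (Q t) := ⟨_, rfl⟩
  have hA0s : SubE 𝓕 H A0 := by
    rw [hA0]
    exact ((SubE.const hH zero_le_one).add hH (SubE.aA hH q hQs)).add hH (SubE.aB hH q hQs)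
  have hsm : ∀ᶠ t in (𝓕 : Filter α), A0 t * Real.exp (-(c * H t)) ≤ Real.exp (-(c / 2 * H t)) := by
    filter_upwards [hA0s.2 (c / 2) (by positivity)] with t ht
    calc A0 t * Real.exp (-(c * H t)) ≤ Real.exp (c / 2 * H t) * Real.exp (-(c * H t)) :=
          mul_le_mul_of_nonneg_right ht (Real.exp_pos _).le
      _ = Real.exp (-(c / 2 * H t)) := by
          rw [← Real.exp_add]
          congr 1
          ring
  have hρ : ∃ i : Fin q, ∀ᶠ t in (𝓕 : Filter α), ∀ n,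
      av (Sum.inl v0 : Pl L) (it (E t) (b t) (ρ i t) n - (y t : L) * (W t : L)⁻¹) ≤
        (A0 t * Real.exp (-(c * H t))) ^ (n + 1) := by
    rw [← Ultrafilter.eventually_exists_iff]
    have hall : ∀ᶠ t in (𝓕 : Filter α), ∀ j ∈ Finset.range q,
        av (Sum.inl v0 : Pl L) (b t j) ≤ Real.exp (-(c * H t)) := by
      rw [Filter.eventually_all_finset]
      intro j hj
      rw [hb]
      exact happ j (Finset.mem_range.1 hj)
    filter_upwards [hall, hroot, hsm, hH_le hH 0] with t h1 h2 h3 h4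
    have h5 : A0 t * Real.exp (-(c * H t)) ≤ 1 := by
      refine h3.trans ?_
      rw [Real.exp_le_one_iff]
      have : 0 ≤ c / 2 * H t := by positivity
      linarith
    rw [hA0] at h5 ⊢
    exact newton (av (Sum.inl v0 : Pl L)) (E t) (hE t) hq (hdeg t) (fun i => ρ i t) (hprod t)
      (Q t) (hQ1 t) (hQc t) (hQd t) (hQe t) (b t) _ (Real.exp_pos _).le h5
      (fun j hj => h1 j (Finset.mem_range.2 hj)) _ h2
  obtain ⟨i0, hρ2⟩ := hρ
  -- the iterates are sums of units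
  have hWpg : PG 𝓕 H Γ (mk 𝓕 (fun t => (W t : L))) := ⟨W, rfl, hW, hWm⟩
  have hWinv : PG 𝓕 H Γ (mk 𝓕 (fun t => (W t : L)⁻¹)) := by
    have h2 := hWpg.inv
    rwa [mk_inv] at h2
  have hit : ∀ n, Sp F (PG 𝓕 H Γ) (mk 𝓕 (fun t => it (E t) (b t) (ρ i0 t) n)) := by
    intro n
    induction n with
    | zero =>
      have h1 : mk 𝓕 (fun t => it (E t) (b t) (ρ i0 t) 0) = mk 𝓕 (ρ i0) * 1 := by
        rw [mul_one]
        rfl
      rw [h1]
      exact Sp.smul (mk_slow.2 (hρs i0)) (Sp.of PG.one)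
    | succ n ih =>
      have h1 : (fun t => it (E t) (b t) (ρ i0 t) (n + 1)) =
          (fun t => it (E t) (b t) (ρ i0 t) n) +
          (fun t => -((E t).derivative.eval (ρ i0 t))⁻¹) *
            ((fun t => it (E t) (b t) (ρ i0 t) n) ^ q +
            ∑ j ∈ Finset.range q, A j * (fun t => (W t : L)⁻¹) ^ (q - j) *
              (fun t => it (E t) (b t) (ρ i0 t) n) ^ j) := by
        funext t
        simp only [Pi.add_apply, Pi.mul_apply, Pi.pow_apply, Finset.sum_apply]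
        rw [← hfv]
        show it (E t) (b t) (ρ i0 t) n - fv (E t) (b t) (it (E t) (b t) (ρ i0 t) n) /
          (E t).derivative.eval (ρ i0 t) = _
        rw [div_eq_mul_inv]
        ring
      rw [h1, map_add, map_mul, map_add, map_pow, map_sum]
      refine ih.add (Sp.smul (mk_slow.2 (hders i0).inv.neg) ((Sp.pow PG.one hmul ih _).add
        (Sp.sum _ _ fun j hj => ?_)))
      rw [map_mul, map_mul, map_pow, map_pow]
      exact Sp.mul hmul (Sp.mul hmul (hA j (Finset.mem_range.1 hj))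
        (Sp.pow PG.one hmul (Sp.of hWinv) _)) (Sp.pow PG.one hmul ih _)
  -- the approximation
  obtain ⟨CW, hCW⟩ := mdr_av hWm (Sum.inl v0 : Pl L)
  obtain ⟨n, hn⟩ := exists_nat_gt ((CW + 1) / (c / 2))
  have hn' : CW + 1 ≤ c / 2 * ((n : ℝ) + 1) := by
    rw [div_lt_iff₀ (by positivity)] at hn
    nlinarith
  obtain ⟨R, hR⟩ : ∃ R : α → L, R = fun t => (W t : L) * it (E t) (b t) (ρ i0 t) n := ⟨_, rfl⟩
  have hRsp : Sp F (PG 𝓕 H Γ) (mk 𝓕 R) := by
    have h1 : mk 𝓕 R = mk 𝓕 (fun t => (W t : L)) *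
        mk 𝓕 (fun t => it (E t) (b t) (ρ i0 t) n) := by
      rw [← map_mul, hR]
      rfl
    rw [h1]
    exact Sp.mul hmul (Sp.of hWpg) (hit n)
  have hap : ∀ᶠ t in (𝓕 : Filter α), av (Sum.inl v0 : Pl L) ((y t : L) - R t) ≤
      Real.exp (-(1 * H t)) := by
    filter_upwards [hρ2, hCW, hH_le hH 0, hsm] with t h1 h2 h3 h6
    have hW0 : (W t : L) ≠ 0 := (W t).ne_zero
    have h5 : (y t : L) - R t =
        -((W t : L) * (it (E t) (b t) (ρ i0 t) n - (y t : L) * (W t : L)⁻¹)) := by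
      rw [hR]
      field_simp
      ring
    rw [h5, map_neg_eq_map, map_mul]
    have h7 : (A0 t * Real.exp (-(c * H t))) ^ (n + 1) ≤
        Real.exp (-((CW + 1) * H t)) := by
      refine (pow_le_pow_left₀ (mul_nonneg (hA0s.1 t) (Real.exp_pos _).le) h6 _).trans ?_
      rw [← Real.exp_nat_mul]
      refine Real.exp_le_exp.2 ?_
      push_cast
      have h8 := mul_le_mul_of_nonneg_right hn' h3
      linarith
    calc av (Sum.inl v0 : Pl L) (W t : L) *
          av (Sum.inl v0 : Pl L) (it (E t) (b t) (ρ i0 t) n - (y t : L) * (W t : L)⁻¹) ≤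
        Real.exp (CW * H t) * Real.exp (-((CW + 1) * H t)) :=
          mul_le_mul h2 ((h1 n).trans h7) ((av _).nonneg _) (Real.exp_pos _).le
      _ = Real.exp (-(1 * H t)) := by
          rw [← Real.exp_add]
          congr 1
          ring
  choose σ hσ using exists_aut v0
  refine lemP hH S hS (fun t => (y t : L)) hy
    (fun t v => av_int v _) (fun w t => σ w (R t))
    (fun w => Sp.mono (PG.toPU hΓS) (sp_aut hH (σ w) (hΓσ (σ w)) _ hRsp)) 1 one_pos fun w => ?_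
  filter_upwards [hap] with t ht
  refine le_trans (le_of_eq ?_) ht
  show w ((y t : L) - σ w (R t)) = v0 ((y t : L) - R t)
  rw [hσ w, map_sub, AlgEquiv.symm_apply_apply, map_intCast]

end Pool.Agent.Run7.h28.EC
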