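import Mathlib
import Pool.Agent.Run7.h28.HK.Fin2

/-!
# Project EC (helper28): polynomials in two variables with support in a box, and a large number field
-/

set_option autoImplicit false
set_option linter.unusedSectionVars false

open Filter Topology

namespace Pool.Agent.Run7.h28.EC

open NumberField IsDedekindDomain Height Module
open Pool.Agent.W180.OP (Pl av wt nrm le_nrm nrm_pos wt_nonneg exists_nrm nrm_nonneg)
open Pool.Agent.N750
open Pool.Agent.Run7.h28.HK

/-- the exponent `(i, j)` -/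
noncomputable def mm (i j : ℕ) : Fin 2 →₀ ℕ := Finsupp.single 0 i + Finsupp.single 1 j

lemma mm_zero (i j : ℕ) : mm i j 0 = i := by simp [mm]

lemma mm_one (i j : ℕ) : mm i j 1 = j := by simp [mm]

lemma mm_eta (m : Fin 2 →₀ ℕ) : mm (m 0) (m 1) = m := by
  ext i
  fin_cases i
  · exact mm_zero _ _
  · exact mm_one _ _

lemma mm_inj {i j i' j' : ℕ} (h : mm i j = mm i' j') : i = i' ∧ j = j' := by
  constructor
  · rw [← mm_zero i j, h, mm_zero]
  · rw [← mm_one i j, h, mm_one]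

/-- the exponents at most `(p, q)` -/
noncomputable def box (p q : ℕ) : Finset (Fin 2 →₀ ℕ) :=
  (Finset.range (q + 1) ×ˢ Finset.range (p + 1)).map
    ⟨fun c => mm c.2 c.1, fun c c' h => by
      have h1 := mm_inj h
      exact Prod.ext h1.2 h1.1⟩

lemma mem_box {p q : ℕ} {m : Fin 2 →₀ ℕ} : m ∈ box p q ↔ m 0 ≤ p ∧ m 1 ≤ q := by
  unfold box
  rw [Finset.mem_map]
  constructor
  · rintro ⟨⟨j, i⟩, h, rfl⟩
    rw [Finset.mem_product, Finset.mem_range, Finset.mem_range] at h
    show mm i j 0 ≤ p ∧ mm i j 1 ≤ q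
    rw [mm_zero, mm_one]
    simp only at h
    omega
  · rintro ⟨h1, h2⟩
    refine ⟨(m 1, m 0), ?_, mm_eta m⟩
    rw [Finset.mem_product, Finset.mem_range, Finset.mem_range]
    simp only
    omega

lemma sum_box {R : Type} [AddCommMonoid R] (p q : ℕ) (f : (Fin 2 →₀ ℕ) → R) :
    ∑ m ∈ box p q, f m = ∑ j ∈ Finset.range (q + 1), ∑ i ∈ Finset.range (p + 1), f (mm i j) := by
  unfold box
  rw [Finset.sum_map, Finset.sum_product]
  rfl

lemma aeval_box {R : Type} [CommRing R] [Algebra ℤ R] {p q : ℕ} (F : MvPolynomial (Fin 2) ℤ)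
    (hF : ∀ m, F.coeff m ≠ 0 → m ∈ box p q) (z : Fin 2 → R) :
    MvPolynomial.aeval z F = ∑ m ∈ box p q, ((F.coeff m : ℤ) : R) * ∏ i, z i ^ m i := by
  rw [MvPolynomial.aeval_def, MvPolynomial.eval₂_eq']
  simp only [eq_intCast]
  refine Finset.sum_subset (fun m hm => hF m (MvPolynomial.mem_support_iff.1 hm)) fun m _ hm => ?_
  rw [MvPolynomial.notMem_support_iff.1 hm, Int.cast_zero, zero_mul]

/-- the polynomial `Φ(1, Y)` -/
noncomputable def topP (Φ : MvPolynomial (Fin 2) ℤ) : Polynomial ℚ :=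
  MvPolynomial.aeval ![1, Polynomial.X] Φ

section top

variable {p q : ℕ} (hp : 0 < p) (hq : 0 < q) {Φ : MvPolynomial (Fin 2) ℤ}
  (hΦ : ∀ m, Φ.coeff m ≠ 0 → q * m 0 + p * m 1 = p * q)
include hp hq hΦ

lemma top_box (m : Fin 2 →₀ ℕ) (hm : Φ.coeff m ≠ 0) : m ∈ box p q := by
  rw [mem_box]
  have h := hΦ m hm
  constructor
  · by_contra h1
    push Not at h1
    have h2 : q * p < q * m 0 := Nat.mul_lt_mul_of_pos_left h1 hq
    rw [mul_comm q p] at h2
    omega
  · by_contra h1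
    push Not at h1
    have h2 : p * q < p * m 1 := Nat.mul_lt_mul_of_pos_left h1 hp
    omega

lemma top_coeff (j : ℕ) : (topP Φ).coeff j =
    if j ∈ Finset.range (q + 1) then ((∑ i ∈ Finset.range (p + 1), Φ.coeff (mm i j) : ℤ) : ℚ)
      else 0 := by
  unfold topP
  rw [aeval_box Φ (top_box hp hq hΦ), sum_box, Polynomial.finsetSum_coeff]
  have h1 : ∀ j' ∈ Finset.range (q + 1), (∑ i ∈ Finset.range (p + 1),
      (((Φ.coeff (mm i j') : ℤ) : Polynomial ℚ) * ∏ l, (![1, Polynomial.X] :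
        Fin 2 → Polynomial ℚ) l ^ (mm i j') l)).coeff j =
      if j = j' then ((∑ i ∈ Finset.range (p + 1), Φ.coeff (mm i j') : ℤ) : ℚ) else 0 := by
    intro j' _
    rw [Polynomial.finsetSum_coeff]
    have h2 : ∀ i ∈ Finset.range (p + 1), (((Φ.coeff (mm i j') : ℤ) : Polynomial ℚ) *
        ∏ l, (![1, Polynomial.X] : Fin 2 → Polynomial ℚ) l ^ (mm i j') l).coeff j =
        if j = j' then ((Φ.coeff (mm i j') : ℤ) : ℚ) else 0 := by
      intro i _
      rw [Fin.prod_univ_two, mm_zero, mm_one]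
      have h3 : ((Φ.coeff (mm i j') : ℤ) : Polynomial ℚ) =
          Polynomial.C ((Φ.coeff (mm i j') : ℤ) : ℚ) := (Polynomial.C_eq_intCast _).symm
      rw [h3]
      simp only [Matrix.cons_val_zero, Matrix.cons_val_one, one_pow, one_mul]
      rw [Polynomial.coeff_C_mul_X_pow]
    rw [Finset.sum_congr rfl h2]
    split_ifs with h
    · push_cast
      rfl
    · exact Finset.sum_const_zero
  rw [Finset.sum_congr rfl h1, Finset.sum_ite_eq]

variable (hΦ1 : Φ.coeff (Finsupp.single 1 q) = 1)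
include hΦ1

lemma top_lead : (topP Φ).coeff q = 1 := by
  rw [top_coeff hp hq hΦ, if_pos (Finset.mem_range.2 (Nat.lt_succ_self q)),
    Finset.sum_eq_single 0]
  · have h1 : mm 0 q = Finsupp.single 1 q := by simp [mm]
    rw [h1, hΦ1]
    simp
  · intro i _ hi
    by_contra h
    have h1 := hΦ _ h
    rw [mm_zero, mm_one] at h1
    have h2 : 0 < q * i := Nat.mul_pos hq (Nat.pos_of_ne_zero hi)
    omega
  · intro h
    exact absurd (Finset.mem_range.2 (Nat.succ_pos p)) h

lemma top_natDegree : (topP Φ).natDegree = q := by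
  refine le_antisymm ?_ ?_
  · rw [Polynomial.natDegree_le_iff_coeff_eq_zero]
    intro N hN
    rw [top_coeff hp hq hΦ, if_neg]
    rw [Finset.mem_range]
    omega
  · refine Polynomial.le_natDegree_of_ne_zero ?_
    rw [top_lead hp hq hΦ hΦ1]
    exact one_ne_zero

lemma top_monic : (topP Φ).Monic := by
  rw [Polynomial.Monic, Polynomial.leadingCoeff, top_natDegree hp hq hΦ hΦ1,
    top_lead hp hq hΦ hΦ1]

end top

/-- a large number field in the complex numbers, splitting a given polynomial -/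
theorem exists_L2 {K : Type} [Field K] [NumberField K] (φ : K →+* ℂ) (T : Finset Kˣ) (q : ℕ)
    (hq : 0 < q) (P : Polynomial ℚ) : ∃ L : IntermediateField ℚ ℂ, FiniteDimensional ℚ L ∧
      IsGalois ℚ L ∧ (P.map (algebraMap ℚ L)).Splits ∧
      ∃ ψ : K →+* L, (∀ z, ((ψ z : L) : ℂ) = φ z) ∧
        ∀ g ∈ T, ∃ h : Lˣ, h ^ q = Units.map (ψ : K →* L) g := by
  classical
  let φ' : K →ₐ[ℚ] ℂ := φ.toRatAlgHom
  let b := Module.finBasis ℚ K
  have halg : ∀ x : K, IsAlgebraic ℚ (φ' x) := fun x =>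
    (Algebra.IsAlgebraic.isAlgebraic (R := ℚ) x).algHom φ'
  have hroot : ∀ g : Kˣ, ∃ h : ℂ, h ^ q = φ' g := fun g => by
    obtain ⟨h, hh⟩ := IsAlgClosed.exists_pow_nat_eq (φ' (g : K)) hq
    exact ⟨h, hh⟩
  choose hr hhr using hroot
  obtain ⟨M, hfd, hnorm, hM⟩ := Pool.Agent.TH286.GT.GrowD.exists_field
    ((P.aroots ℂ).toFinset ∪ (Finset.univ.image fun i => φ' (b i)) ∪
      T.image hr) (by
      intro x hx
      rw [Finset.mem_union, Finset.mem_union] at hx
      rcases hx with (hx | hx) | hx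
      · rw [Multiset.mem_toFinset, Polynomial.mem_aroots'] at hx
        refine ⟨P, ?_, hx.2⟩
        rintro rfl
        exact hx.1 (Polynomial.map_zero _)
      · obtain ⟨i, -, rfl⟩ := Finset.mem_image.1 hx
        exact halg _
      · obtain ⟨g, -, rfl⟩ := Finset.mem_image.1 hx
        have h1 : IsAlgebraic ℚ (hr g ^ q) := by
          rw [hhr]
          exact halg _
        exact IsAlgebraic.of_pow hq h1)
  have hmem : ∀ x : K, φ' x ∈ M := by
    intro x
    rw [← b.sum_repr x, map_sum]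
    refine sum_mem fun i _ => ?_
    rw [Algebra.smul_def, map_mul, φ'.commutes, ← Algebra.smul_def]
    exact M.smul_mem (hM _ (Finset.mem_union_left _ (Finset.mem_union_right _
      (Finset.mem_image_of_mem _ (Finset.mem_univ i)))))
  refine ⟨M, hfd, ⟨⟩, ?_,
    (φ' : K →+* ℂ).codRestrict M.toSubfield hmem, fun z => rfl, fun g hg => ?_⟩
  · refine Polynomial.Splits.of_splits_map (algebraMap M ℂ) (IsAlgClosed.splits _) ?_
    intro a ha
    rw [Polynomial.map_map, ← IsScalarTower.algebraMap_eq] at ha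
    exact ⟨⟨a, hM _ (Finset.mem_union_left _ (Finset.mem_union_left _
      (Multiset.mem_toFinset.2 ha)))⟩, rfl⟩
  · have h1 : hr g ∈ M := hM _ (Finset.mem_union_right _ (Finset.mem_image_of_mem _ hg))
    have h2 : (⟨hr g, h1⟩ : M) ≠ 0 := by
      intro h
      have h3 : hr g = 0 := congrArg Subtype.val h
      have h4 := hhr g
      rw [h3, zero_pow hq.ne'] at h4
      exact g.ne_zero ((map_eq_zero φ').1 h4.symm)
    refine ⟨Units.mk0 _ h2, ?_⟩
    apply Units.ext
    apply Subtype.ext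
    show hr g ^ q = φ' g
    exact hhr g

section pg

variable {K : Type} [Field K] [NumberField K] {α : Type} {𝓕 : Ultrafilter α} {H : α → ℝ}

/-- the germ of a moderate sum of elements of a group -/
theorem hb_pg (hH : Tendsto H 𝓕 atTop) (S : Finset (Pl K))
    (hS : ∀ w : InfinitePlace K, (Sum.inl w : Pl K) ∈ S) (Γ : Subgroup Kˣ)
    (hΓS : ∀ g ∈ Γ, IsU S (g : K)) {k : ℕ} (c : Fin k → α → K) (u : Fin k → α → Kˣ)
    (X : α → K) (hX : Mdr 𝓕 H X) (hc : ∀ i, Slow 𝓕 H (c i)) (hu : ∀ i t, u i t ∈ Γ)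
    (h : ∀ᶠ t in (𝓕 : Filter α), X t = ∑ i, c i t * (u i t : K)) :
    Sp (slowF 𝓕 K H hH) (PG 𝓕 H Γ) (mk 𝓕 X) := by
  classical
  obtain ⟨J, -, hJ2, hJ3⟩ := HK.hb hH S hS c (fun i t => (u i t : K)) X hX Finset.univ
    (fun i _ => hc i) (fun i _ t => hΓS _ (hu i t)) h
  rw [mk_eq.2 hJ3, mk_finsum J c (fun i t => (u i t : K))]
  exact Sp.sum _ _ fun i hi => Sp.smul (mk_slow.2 (hc i)) (Sp.of ⟨u i, rfl, hu i, hJ2 i hi⟩)

end pg

end Pool.Agent.Run7.h28.EC
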