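import Mathlib
import Pool.Agent.Run7.h28.EC.Box

/-!
# Project EC (helper28): sequences of large integer points on plane curves
-/

set_option autoImplicit false
set_option linter.unusedSectionVars false

open Filter Topology

namespace Pool.Agent.Run7.h28.EC

open NumberField IsDedekindDomain Height Module
open Pool.Agent.W180.OP (Pl av wt nrm le_nrm nrm_pos wt_nonneg exists_nrm nrm_nonneg)
open Pool.Agent.N750
open Pool.Agent.Run7.h28.HK

/-- the equation of a curve which is monic in the ordinate -/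
lemma expand {R : Type} [CommRing R] {p q : ℕ} (F : MvPolynomial (Fin 2) ℤ)
    (hF : ∀ m, F.coeff m ≠ 0 → m ∈ box p q)
    (hlead : ∀ i, F.coeff (mm i q) = if i = 0 then 1 else 0) (x y : ℤ)
    (h : MvPolynomial.eval ![x, y] F = 0) :
    (y : R) ^ q + ∑ j ∈ Finset.range q, (∑ i ∈ Finset.range (p + 1),
      ((F.coeff (mm i j) : ℤ) : R) * (x : R) ^ i) * (y : R) ^ j = 0 := by
  have h1 : y ^ q + ∑ j ∈ Finset.range q, (∑ i ∈ Finset.range (p + 1),
      (F.coeff (mm i j)) * x ^ i) * y ^ j = 0 := by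
    have h' : MvPolynomial.aeval (![x, y] : Fin 2 → ℤ) F = (0 : ℤ) := by
      rw [← h, ← MvPolynomial.coe_aeval_eq_eval]
      rfl
    clear h
    rename' h' => h
    rw [aeval_box (R := ℤ) F hF, sum_box, Finset.sum_range_succ] at h
    have h2 : ∀ j, ∑ i ∈ Finset.range (p + 1), ((F.coeff (mm i j) : ℤ) : ℤ) *
        ∏ l, (![x, y] : Fin 2 → ℤ) l ^ (mm i j) l =
        (∑ i ∈ Finset.range (p + 1), (F.coeff (mm i j)) * x ^ i) * y ^ j := by
      intro j
      rw [Finset.sum_mul]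
      refine Finset.sum_congr rfl fun i _ => ?_
      rw [Fin.prod_univ_two, mm_zero, mm_one, mul_assoc]
      rfl
    simp only [Int.cast_id, h2] at h
    have h3 : ∑ i ∈ Finset.range (p + 1), (F.coeff (mm i q)) * x ^ i = 1 := by
      rw [Finset.sum_eq_single 0]
      · rw [hlead, if_pos rfl, pow_zero, mul_one]
      · intro i _ hi
        rw [hlead, if_neg hi, zero_mul]
      · intro h
        exact absurd (Finset.mem_range.2 (Nat.succ_pos p)) h
    rw [h3, one_mul] at h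
    linarith
  have h2 := congrArg (Int.cast : ℤ → R) h1
  push_cast at h2
  exact h2

/-- the ordinate is bounded in terms of the abscissa -/
lemma ord_le {p q : ℕ} (hq : 0 < q) (F : MvPolynomial (Fin 2) ℤ)
    (hF : ∀ m, F.coeff m ≠ 0 → m ∈ box p q)
    (hlead : ∀ i, F.coeff (mm i q) = if i = 0 then 1 else 0) (M : ℝ) (hM : 1 ≤ M)
    (hM2 : ∀ m, |((F.coeff m : ℤ) : ℝ)| ≤ M) (x y : ℤ) (h : MvPolynomial.eval ![x, y] F = 0) :
    |(y : ℝ)| ≤ q * ((p + 1) * (M * (max 1 |(x : ℝ)|) ^ p)) := by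
  have hX : 1 ≤ max 1 |(x : ℝ)| := le_max_left _ _
  have hXp : 1 ≤ (max 1 |(x : ℝ)|) ^ p := one_le_pow₀ hX
  have hq1 : (1 : ℝ) ≤ q := by exact_mod_cast hq
  have hp1 : (1 : ℝ) ≤ (p : ℝ) + 1 := by
    have : (0 : ℝ) ≤ p := Nat.cast_nonneg p
    linarith
  have hrhs : 1 ≤ q * ((p + 1) * (M * (max 1 |(x : ℝ)|) ^ p)) :=
    one_le_mul_of_one_le_of_one_le hq1 (one_le_mul_of_one_le_of_one_le hp1
      (one_le_mul_of_one_le_of_one_le hM hXp))
  rcases le_or_gt |(y : ℝ)| 1 with hy | hy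
  · exact hy.trans hrhs
  have h1 := expand (R := ℝ) F hF hlead x y h
  have h2 : (y : ℝ) ^ q = -∑ j ∈ Finset.range q, (∑ i ∈ Finset.range (p + 1),
      ((F.coeff (mm i j) : ℤ) : ℝ) * (x : ℝ) ^ i) * (y : ℝ) ^ j := by linarith
  have h3 : |(y : ℝ)| ^ q ≤ q * ((p + 1) * (M * (max 1 |(x : ℝ)|) ^ p)) * |(y : ℝ)| ^ (q - 1) := by
    rw [← abs_pow, h2, abs_neg]
    refine (Finset.abs_sum_le_sum_abs _ _).trans ?_
    calc ∑ j ∈ Finset.range q, |(∑ i ∈ Finset.range (p + 1),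
          ((F.coeff (mm i j) : ℤ) : ℝ) * (x : ℝ) ^ i) * (y : ℝ) ^ j| ≤
          ∑ _j ∈ Finset.range q, ((p + 1) * (M * (max 1 |(x : ℝ)|) ^ p)) * |(y : ℝ)| ^ (q - 1) := by
            refine Finset.sum_le_sum fun j hj => ?_
            rw [abs_mul, abs_pow]
            have hj' := Finset.mem_range.1 hj
            refine mul_le_mul ?_ (pow_le_pow_right₀ hy.le (by omega)) (by positivity)
              (by positivity)
            refine (Finset.abs_sum_le_sum_abs _ _).trans ?_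
            calc ∑ i ∈ Finset.range (p + 1), |((F.coeff (mm i j) : ℤ) : ℝ) * (x : ℝ) ^ i| ≤
                ∑ _i ∈ Finset.range (p + 1), M * (max 1 |(x : ℝ)|) ^ p := by
                  refine Finset.sum_le_sum fun i hi => ?_
                  have hi' := Finset.mem_range.1 hi
                  rw [abs_mul, abs_pow]
                  refine mul_le_mul (hM2 _) ?_ (by positivity) (by linarith)
                  exact (pow_le_pow_left₀ (abs_nonneg _) (le_max_right 1 _) _).trans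
                    (pow_le_pow_right₀ hX (by omega))
              _ = (p + 1) * (M * (max 1 |(x : ℝ)|) ^ p) := by
                  rw [Finset.sum_const, Finset.card_range, nsmul_eq_mul]
                  push_cast
                  ring
      _ = q * ((p + 1) * (M * (max 1 |(x : ℝ)|) ^ p)) * |(y : ℝ)| ^ (q - 1) := by
            rw [Finset.sum_const, Finset.card_range, nsmul_eq_mul]
            ring
  have h4 : |(y : ℝ)| ^ q = |(y : ℝ)| * |(y : ℝ)| ^ (q - 1) := by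
    rw [← pow_succ']
    congr 1
    omega
  rw [h4] at h3
  exact le_of_mul_le_mul_right h3 (pow_pos (by linarith) _)

/-- a sequence of large integer points -/
structure Vio (p q : ℕ) (MΦ : ℝ) (F : ℕ → MvPolynomial (Fin 2) ℤ) (M : ℕ → ℝ) (x y : ℕ → ℤ)
    (H : ℕ → ℝ) : Prop where
  hp : 0 < p
  hq : 0 < q
  hMΦ : 1 ≤ MΦ
  hM : ∀ t, 1 ≤ M t
  hexp : ∀ t, Real.exp (H t) = max |(x t : ℝ)| |(y t : ℝ)|
  hbig : ∀ t : ℕ, ((t : ℝ) + 1) * (1 + Real.log (M t)) < H t
  hbox : ∀ t m, (F t).coeff m ≠ 0 → m ∈ box p q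
  hlead : ∀ t i, (F t).coeff (mm i q) = if i = 0 then 1 else 0
  hcoef : ∀ t m, |(((F t).coeff m : ℤ) : ℝ)| ≤ MΦ * M t
  hzero : ∀ t, MvPolynomial.eval ![x t, y t] (F t) = 0

namespace Vio

variable {p q : ℕ} {MΦ : ℝ} {F : ℕ → MvPolynomial (Fin 2) ℤ} {M : ℕ → ℝ} {x y : ℕ → ℤ}
  {H : ℕ → ℝ} (hb : Vio p q MΦ F M x y H)
include hb

lemma hlM (t : ℕ) : 0 ≤ Real.log (M t) := Real.log_nonneg (hb.hM t)

lemma hH1 (t : ℕ) : (t : ℝ) + 1 < H t := by
  have h1 := hb.hbig t
  have h2 : ((t : ℝ) + 1) * 1 ≤ ((t : ℝ) + 1) * (1 + Real.log (M t)) :=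
    mul_le_mul_of_nonneg_left (by linarith [hb.hlM t]) (by positivity)
  linarith

lemma hL0 (t : ℕ) : 0 ≤ H t := by
  have h1 := hb.hH1 t
  have h2 : (0 : ℝ) ≤ t := Nat.cast_nonneg t
  linarith

lemma hL : Tendsto H atTop atTop := by
  refine tendsto_atTop_mono (fun t => ?_) tendsto_natCast_atTop_atTop
  have h1 := hb.hH1 t
  linarith

/-- `log M` is negligible -/
lemma negl {ε' : ℝ} (hε' : 0 < ε') : ∀ᶠ t : ℕ in atTop, 1 + Real.log (M t) ≤ ε' * H t := by
  have h1 : ∀ᶠ t : ℕ in atTop, 1 / ε' ≤ (t : ℝ) :=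
    tendsto_natCast_atTop_atTop.eventually_ge_atTop _
  refine h1.mono fun t ht => ?_
  have h2 := hb.hbig t
  have h3 : 1 / ε' * (1 + Real.log (M t)) ≤ ((t : ℝ) + 1) * (1 + Real.log (M t)) :=
    mul_le_mul_of_nonneg_right (by linarith) (by linarith [hb.hlM t])
  have h5 : 1 / ε' * (1 + Real.log (M t)) ≤ H t := h3.trans h2.le
  rwa [one_div, inv_mul_le_iff₀ hε'] at h5

lemma slow {K : Type} [Field K] [NumberField K] {𝓕 : Ultrafilter ℕ}
    (h𝓕 : (𝓕 : Filter ℕ) ≤ atTop) {a : ℕ → K} {B : ℝ} (hB : 0 ≤ B)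
    (ha : ∀ t, logHeight₁ (a t) ≤ B * (1 + Real.log (M t))) : Slow 𝓕 H a := by
  intro ε' hε'
  refine ((hb.negl (ε' := ε' / (B + 1)) (by positivity)).filter_mono h𝓕).mono fun t ht => ?_
  have h1 : B * (1 + Real.log (M t)) ≤ (B + 1) * (1 + Real.log (M t)) :=
    mul_le_mul_of_nonneg_right (by linarith) (by linarith [hb.hlM t])
  have h2 : (B + 1) * (1 + Real.log (M t)) ≤ (B + 1) * (ε' / (B + 1) * H t) :=
    mul_le_mul_of_nonneg_left ht (by linarith)
  have h3 : (B + 1) * (ε' / (B + 1) * H t) = ε' * H t := by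
    field_simp
  have h4 := ha t
  linarith

/-- the coefficients are slow -/
lemma slow_coef {K : Type} [Field K] [NumberField K] {𝓕 : Ultrafilter ℕ}
    (h𝓕 : (𝓕 : Filter ℕ) ≤ atTop) (m : Fin 2 →₀ ℕ) :
    Slow 𝓕 H (fun t => (((F t).coeff m : ℤ) : K)) := by
  have hMΦ := hb.hMΦ
  refine hb.slow h𝓕 (B := finrank ℚ K * (1 + Real.log MΦ))
    (mul_nonneg (Nat.cast_nonneg _) (by linarith [Real.log_nonneg hMΦ])) fun t => ?_
  refine (ht_int _).trans ?_
  rw [mul_assoc]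
  refine mul_le_mul_of_nonneg_left ?_ (Nat.cast_nonneg _)
  have hM := hb.hM t
  have h1 : max 1 |(((F t).coeff m : ℤ) : ℝ)| ≤ MΦ * M t :=
    max_le (one_le_mul_of_one_le_of_one_le hMΦ hM) (hb.hcoef t m)
  have h2 := Real.log_le_log (by positivity) h1
  rw [Real.log_mul (by linarith) (by linarith)] at h2
  have h3 := Real.log_nonneg hMΦ
  have h4 := hb.hlM t
  nlinarith

lemma hxle (t : ℕ) : |(x t : ℝ)| ≤ Real.exp (H t) := by
  rw [hb.hexp]
  exact le_max_left _ _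

lemma hyle (t : ℕ) : |(y t : ℝ)| ≤ Real.exp (H t) := by
  rw [hb.hexp]
  exact le_max_right _ _

/-- the abscissa is large -/
lemma large : ∀ᶠ t : ℕ in atTop, Real.exp (H t / (2 * p)) ≤ |(x t : ℝ)| := by
  have hp := hb.hp
  have hq := hb.hq
  have hMΦ := hb.hMΦ
  have hp' : (0 : ℝ) < p := by exact_mod_cast hp
  have hq' : (0 : ℝ) < q := by exact_mod_cast hq
  obtain ⟨c, hc⟩ : ∃ c : ℝ, c = (q : ℝ) * (((p : ℝ) + 1) * MΦ) := ⟨_, rfl⟩
  have hc0 : 0 < c := by rw [hc]; positivity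
  have hc1 : 1 ≤ c := by
    rw [hc]
    refine one_le_mul_of_one_le_of_one_le (by exact_mod_cast hq)
      (one_le_mul_of_one_le_of_one_le (by linarith) hMΦ)
  filter_upwards [hb.negl (ε' := 1 / 4) (by norm_num),
    hb.hL.eventually_ge_atTop (4 * Real.log c)] with t h1 h2
  have hM := hb.hM t
  have hX : 1 ≤ max 1 |(x t : ℝ)| := le_max_left _ _
  have hMM : 1 ≤ MΦ * M t := one_le_mul_of_one_le_of_one_le hMΦ hM
  have h3 := ord_le hq (F t) (hb.hbox t) (hb.hlead t) (MΦ * M t) hMM (hb.hcoef t) (x t) (y t)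
    (hb.hzero t)
  have h4 : (q : ℝ) * ((p + 1) * (MΦ * M t * (max 1 |(x t : ℝ)|) ^ p)) =
      c * M t * (max 1 |(x t : ℝ)|) ^ p := by
    rw [hc]
    ring
  rw [h4] at h3
  have h5 : Real.exp (H t) ≤ c * M t * (max 1 |(x t : ℝ)|) ^ p := by
    rw [hb.hexp]
    refine max_le ?_ h3
    have h6 : (max 1 |(x t : ℝ)|) ≤ (max 1 |(x t : ℝ)|) ^ p := le_self_pow₀ hX hp.ne'
    have h7 : 1 ≤ c * M t := one_le_mul_of_one_le_of_one_le hc1 hM
    calc |(x t : ℝ)| ≤ max 1 |(x t : ℝ)| := le_max_right _ _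
      _ ≤ (max 1 |(x t : ℝ)|) ^ p := h6
      _ ≤ c * M t * (max 1 |(x t : ℝ)|) ^ p := le_mul_of_one_le_left (by positivity) h7
  have h6 := Real.log_le_log (Real.exp_pos _) h5
  rw [Real.log_exp, Real.log_mul (by positivity) (by positivity),
    Real.log_mul (by positivity) (by linarith), Real.log_pow] at h6
  have h7 := hb.hH1 t
  have h8 : (0 : ℝ) ≤ t := Nat.cast_nonneg t
  have h9 : H t / 2 ≤ p * Real.log (max 1 |(x t : ℝ)|) := by linarith
  have h10 : H t / (2 * p) ≤ Real.log (max 1 |(x t : ℝ)|) := by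
    rw [div_le_iff₀ (by positivity)]
    linarith
  have h11 : 0 < H t / (2 * p) := by
    have : 0 < H t := by linarith
    positivity
  rcases max_choice (1 : ℝ) |(x t : ℝ)| with h12 | h12
  · rw [h12, Real.log_one] at h10
    linarith
  · rw [h12] at h10
    have h13 : 0 < |(x t : ℝ)| := by
      rw [← h12]
      positivity
    rw [← Real.exp_log h13]
    exact Real.exp_le_exp.2 h10

end Vio

end Pool.Agent.Run7.h28.EC
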