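import Mathlib
import Pool.Agent.Run7.h28.EC.Vio
import Pool.Agent.Run7.h28.EC.Core

/-!
# Project EC (helper28): the coefficients are close to those of the top form
-/

set_option autoImplicit false
set_option linter.unusedSectionVars false

open Filter Topology

namespace Pool.Agent.Run7.h28.EC

open NumberField IsDedekindDomain Height Module
open Pool.Agent.W180.OP (Pl av wt nrm le_nrm nrm_pos wt_nonneg exists_nrm nrm_nonneg)
open Pool.Agent.N750
open Pool.Agent.Run7.h28.HK

/-- the monomial in terms of the quotient of the abscissa by the power of the unit -/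
lemma mono_eq {L : Type} [Field L] {p q i j : ℕ} (h : q * i + p * j ≤ p * q) (x V : L) :
    x ^ i * ((V ^ p)⁻¹) ^ (q - j) = (x / V ^ q) ^ i * (V⁻¹) ^ (p * q - (q * i + p * j)) := by
  have h1 : p * (q - j) = q * i + (p * q - (q * i + p * j)) := by
    rw [Nat.mul_sub]
    omega
  rw [div_pow, ← inv_pow, ← pow_mul, h1, pow_add, ← pow_mul, inv_pow V (q * i), div_eq_mul_inv,
    mul_assoc]

/-- the points where a power of the absolute value of an integer is a bound -/
lemma gap_bounds {L : Type} [Field L] [NumberField L] {𝓕 : Ultrafilter ℕ} {H : ℕ → ℝ}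
    (hH : Tendsto H 𝓕 atTop) (v0 : InfinitePlace L) {p q : ℕ} (hp : 0 < p) (hq : 0 < q)
    (δ : ℝ) (hδ : 0 < δ) (M : ℕ → ℝ) (hM : ∀ t, 1 ≤ M t)
    (hneg : ∀ ε' : ℝ, 0 < ε' → ∀ᶠ t in (𝓕 : Filter ℕ), 1 + Real.log (M t) ≤ ε' * H t)
    (x : ℕ → ℤ) (hx : ∀ᶠ t in (𝓕 : Filter ℕ), Real.exp (H t / (2 * p)) ≤ |(x t : ℝ)|)
    (V : ℕ → Lˣ) (hgap : ∀ t, av (Sum.inl v0 : Pl L) ((x t : L) - (V t : L) ^ q) ≤
      M t * |(x t : ℝ)| ^ (1 - δ)) :
    ∃ c : ℝ, 0 < c ∧ ∀ᶠ t in (𝓕 : Filter ℕ),
      av (Sum.inl v0 : Pl L) ((x t : L) / (V t : L) ^ q - 1) ≤ Real.exp (-(c * H t)) ∧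
      av (Sum.inl v0 : Pl L) ((V t : L)⁻¹) ≤ Real.exp (-(c * H t)) := by
  have hp' : (0 : ℝ) < p := by exact_mod_cast hp
  have hq' : (0 : ℝ) < q := by exact_mod_cast hq
  obtain ⟨c3, hc3⟩ : ∃ c3 : ℝ, c3 = δ / (4 * p) := ⟨_, rfl⟩
  have hc3pos : 0 < c3 := by rw [hc3]; positivity
  refine ⟨min (c3 / 2) (1 / (4 * p * q)), by positivity, ?_⟩
  filter_upwards [hx, hneg c3 hc3pos, hH_le hH 0, hH_le hH (Real.log 2 / (c3 / 2)),
    hH_le hH (4 * p * Real.log 2)] with t h1 h2 h3 h4 h5
  have hMt := hM t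
  have hX0 : 0 < |(x t : ℝ)| := (Real.exp_pos _).trans_le h1
  have hlx : H t / (2 * p) ≤ Real.log |(x t : ℝ)| := by
    have h6 := Real.log_le_log (Real.exp_pos _) h1
    rwa [Real.log_exp] at h6
  obtain ⟨r, hr⟩ : ∃ r : ℝ, r = Real.exp (Real.log (M t) - δ * Real.log |(x t : ℝ)|) := ⟨_, rfl⟩
  have hr0 : 0 < r := by rw [hr]; exact Real.exp_pos _
  have h6 : M t * |(x t : ℝ)| ^ (1 - δ) = r * |(x t : ℝ)| := by
    rw [hr, Real.exp_sub, Real.exp_log (by linarith [hM t]), Real.rpow_sub hX0, Real.rpow_one,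
      mul_comm δ, ← Real.rpow_def_of_pos hX0]
    ring
  have h7 := hgap t
  rw [h6] at h7
  have h8 : r ≤ Real.exp (-(c3 * H t)) := by
    rw [hr]
    refine Real.exp_le_exp.2 ?_
    have h9 : δ * (H t / (2 * p)) ≤ δ * Real.log |(x t : ℝ)| := mul_le_mul_of_nonneg_left hlx hδ.le
    have h10 : δ * (H t / (2 * p)) = 2 * (c3 * H t) := by
      rw [hc3]
      field_simp
      ring
    linarith
  have h9 : Real.exp (-(c3 * H t)) ≤ 1 / 2 * Real.exp (-(c3 / 2 * H t)) := by
    rw [div_le_iff₀ (by positivity)] at h4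
    have h10 : Real.exp (-(c3 * H t)) =
        Real.exp (-(c3 / 2 * H t)) * Real.exp (-(c3 / 2 * H t)) := by
      rw [← Real.exp_add]
      congr 1
      ring
    have h11 : Real.exp (-(c3 / 2 * H t)) ≤ 1 / 2 := by
      have h12 : Real.exp (-(c3 / 2 * H t)) ≤ Real.exp (-Real.log 2) :=
        Real.exp_le_exp.2 (by linarith)
      rwa [Real.exp_neg (Real.log 2), Real.exp_log (by norm_num), ← one_div] at h12
    rw [h10]
    exact mul_le_mul_of_nonneg_right h11 (Real.exp_pos _).le
  have h10 : Real.exp (-(c3 / 2 * H t)) ≤ 1 := by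
    rw [Real.exp_le_one_iff]
    have : 0 ≤ c3 / 2 * H t := by positivity
    linarith
  have hr2 : r ≤ 1 / 2 * Real.exp (-(c3 / 2 * H t)) := h8.trans h9
  have hr12 : r ≤ 1 / 2 := by linarith
  have hVq : |(x t : ℝ)| / 2 ≤ av (Sum.inl v0 : Pl L) ((V t : L) ^ q) := by
    have h11 : (x t : L) = ((x t : L) - (V t : L) ^ q) + (V t : L) ^ q := by ring
    have h12 := (av (Sum.inl v0 : Pl L)).add_le ((x t : L) - (V t : L) ^ q) ((V t : L) ^ q)
    rw [← h11, av_inf] at h12
    have h13 : r * |(x t : ℝ)| ≤ 1 / 2 * |(x t : ℝ)| := mul_le_mul_of_nonneg_right hr12 hX0.le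
    linarith
  have hVq0 : 0 < av (Sum.inl v0 : Pl L) ((V t : L) ^ q) := by linarith
  have hV0 : (V t : L) ≠ 0 := (V t).ne_zero
  constructor
  · have h11 : (x t : L) / (V t : L) ^ q - 1 = ((x t : L) - (V t : L) ^ q) / (V t : L) ^ q := by
      field_simp
    rw [h11, map_div₀, div_le_iff₀ hVq0]
    refine h7.trans ?_
    calc r * |(x t : ℝ)| ≤ (1 / 2 * Real.exp (-(c3 / 2 * H t))) *
          (2 * av (Sum.inl v0 : Pl L) ((V t : L) ^ q)) := by
            refine mul_le_mul hr2 (by linarith) hX0.le (by positivity)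
      _ = Real.exp (-(c3 / 2 * H t)) * av (Sum.inl v0 : Pl L) ((V t : L) ^ q) := by ring
      _ ≤ Real.exp (-(min (c3 / 2) (1 / (4 * p * q)) * H t)) *
          av (Sum.inl v0 : Pl L) ((V t : L) ^ q) := by
            refine mul_le_mul_of_nonneg_right (Real.exp_le_exp.2 ?_) hVq0.le
            have h12 : min (c3 / 2) (1 / (4 * p * q)) * H t ≤ c3 / 2 * H t :=
              mul_le_mul_of_nonneg_right (min_le_left _ _) h3
            linarith
  · rw [map_inv₀]
    have hVpos : 0 < av (Sum.inl v0 : Pl L) (V t : L) := (av _).pos_iff.2 hV0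
    rw [← Real.exp_log (inv_pos.2 hVpos)]
    refine Real.exp_le_exp.2 ?_
    rw [Real.log_inv]
    have h11 := Real.log_le_log (by positivity) hVq
    rw [map_pow, Real.log_pow, Real.log_div hX0.ne' (by norm_num)] at h11
    have h12 : H t / (4 * p) ≤ H t / (2 * p) - Real.log 2 := by
      have h13 : Real.log 2 ≤ H t / (4 * p) := by
        rw [le_div_iff₀ (by positivity)]
        linarith
      have h14 : H t / (2 * p) = 2 * (H t / (4 * p)) := by
        field_simp
        ring
      rw [h14]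
      linarith
    have h13 : H t / (4 * p) ≤ q * Real.log (av (Sum.inl v0 : Pl L) (V t : L)) := by linarith
    have h14 : 1 / (4 * p * q) * H t ≤ Real.log (av (Sum.inl v0 : Pl L) (V t : L)) := by
      have h15 : 1 / (4 * (p : ℝ) * q) * H t = H t / (4 * p) / q := by
        field_simp
      rw [h15, div_le_iff₀ hq']
      linarith
    have h15 : min (c3 / 2) (1 / (4 * p * q)) * H t ≤ 1 / (4 * p * q) * H t :=
      mul_le_mul_of_nonneg_right (min_le_right _ _) h3
    linarith

/-- the coefficients of the equation are close to those of the top form -/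
lemma coef_close {L : Type} [Field L] [NumberField L] {𝓕 : Ultrafilter ℕ} {H : ℕ → ℝ}
    (hH : Tendsto H 𝓕 atTop) (v0 : InfinitePlace L) {p q : ℕ} (M : ℕ → ℝ) (hM : ∀ t, 1 ≤ M t)
    (hneg : ∀ ε' : ℝ, 0 < ε' → ∀ᶠ t in (𝓕 : Filter ℕ), 1 + Real.log (M t) ≤ ε' * H t)
    (F : ℕ → MvPolynomial (Fin 2) ℤ)
    (hF1 : ∀ t m, (F t).coeff m ≠ 0 → q * m 0 + p * m 1 ≤ p * q)
    (hF2 : ∀ t m, |(((F t).coeff m : ℤ) : ℝ)| ≤ M t)
    (x : ℕ → ℤ) (V : ℕ → Lˣ) (c : ℝ) (hc : 0 < c)
    (hcl : ∀ᶠ t in (𝓕 : Filter ℕ),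
      av (Sum.inl v0 : Pl L) ((x t : L) / (V t : L) ^ q - 1) ≤ Real.exp (-(c * H t)) ∧
      av (Sum.inl v0 : Pl L) ((V t : L)⁻¹) ≤ Real.exp (-(c * H t))) (j : ℕ) :
    ∀ᶠ t in (𝓕 : Filter ℕ), av (Sum.inl v0 : Pl L)
      ((∑ i ∈ Finset.range (p + 1), (((F t).coeff (mm i j) : ℤ) : L) * (x t : L) ^ i) *
        (((V t : L) ^ p)⁻¹) ^ (q - j) -
        ((∑ i ∈ Finset.range (p + 1), if q * i + p * j = p * q then (F t).coeff (mm i j)
          else 0 : ℤ) : L)) ≤
      Real.exp (-(c / 4 * H t)) := by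
  have hterm : ∀ i ∈ Finset.range (p + 1), ∀ᶠ t in (𝓕 : Filter ℕ), av (Sum.inl v0 : Pl L)
      ((((F t).coeff (mm i j) : ℤ) : L) * (x t : L) ^ i * (((V t : L) ^ p)⁻¹) ^ (q - j) -
        ((if q * i + p * j = p * q then (F t).coeff (mm i j) else 0 : ℤ) : L)) ≤
        Real.exp (-(c / 2 * H t)) := by
    intro i _
    have h2i : (0 : ℝ) < 2 ^ i := by positivity
    have hMexp : ∀ᶠ t in (𝓕 : Filter ℕ), M t ≤ Real.exp (c / 4 * H t) := by
      filter_upwards [hneg (c / 4) (by positivity)] with t h2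
      rw [← Real.exp_log (show 0 < M t by linarith [hM t])]
      exact Real.exp_le_exp.2 (by linarith)
    rcases lt_trichotomy (q * i + p * j) (p * q) with hlt | heq | hgt
    · -- below the line
      filter_upwards [hcl, hMexp, hH_le hH 0,
        hH_le hH (Real.log (2 ^ i) / (c / 4))] with t h1 h7 h3 h4
      obtain ⟨h1a, h1b⟩ := h1
      have hexp1 : Real.exp (-(c * H t)) ≤ 1 := by
        rw [Real.exp_le_one_iff]
        have : 0 ≤ c * H t := by positivity
        linarith
      have hf := hF2 t (mm i j)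
      rw [if_neg hlt.ne, Int.cast_zero, sub_zero, mul_assoc, mono_eq hlt.le,
        map_mul, map_mul, map_pow, map_pow, av_inf]
      have h5 : av (Sum.inl v0 : Pl L) ((x t : L) / (V t : L) ^ q) ≤ 2 := by
        have h6 : (x t : L) / (V t : L) ^ q = ((x t : L) / (V t : L) ^ q - 1) + 1 := by ring
        rw [h6]
        refine ((av _).add_le _ _).trans ?_
        rw [map_one]
        linarith
      have h6 : av (Sum.inl v0 : Pl L) ((V t : L)⁻¹) ^ (p * q - (q * i + p * j)) ≤
          Real.exp (-(c * H t)) := by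
        have h7 : p * q - (q * i + p * j) ≠ 0 := by omega
        exact (pow_le_of_le_one ((av _).nonneg _) (h1b.trans hexp1) h7).trans h1b
      have h8 : (2 : ℝ) ^ i ≤ Real.exp (c / 4 * H t) := by
        rw [div_le_iff₀ (by positivity)] at h4
        rw [← Real.exp_log h2i]
        exact Real.exp_le_exp.2 (by linarith)
      calc |(((F t).coeff (mm i j) : ℤ) : ℝ)| *
            (av (Sum.inl v0 : Pl L) ((x t : L) / (V t : L) ^ q) ^ i *
              av (Sum.inl v0 : Pl L) ((V t : L)⁻¹) ^ (p * q - (q * i + p * j))) ≤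
          Real.exp (c / 4 * H t) * (Real.exp (c / 4 * H t) * Real.exp (-(c * H t))) := by
            refine mul_le_mul (hf.trans h7) ?_ ?_ (Real.exp_pos _).le
            · refine mul_le_mul ((pow_le_pow_left₀ ((av _).nonneg _) h5 _).trans h8) h6 ?_
                (Real.exp_pos _).le
              exact pow_nonneg ((av _).nonneg _) _
            · exact mul_nonneg (pow_nonneg ((av _).nonneg _) _) (pow_nonneg ((av _).nonneg _) _)
        _ = Real.exp (-(c / 2 * H t)) := by
            rw [← Real.exp_add, ← Real.exp_add]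
            congr 1
            ring
    · -- on the line
      filter_upwards [hcl, hMexp, hH_le hH 0,
        hH_le hH (Real.log (i * 2 ^ i + 1) / (c / 4))] with t h1 h2 h3 h4
      obtain ⟨h1a, h1b⟩ := h1
      have hexp1 : Real.exp (-(c * H t)) ≤ 1 := by
        rw [Real.exp_le_one_iff]
        have : 0 ≤ c * H t := by positivity
        linarith
      have h5 : av (Sum.inl v0 : Pl L) ((x t : L) / (V t : L) ^ q) ≤ 2 := by
        have h6 : (x t : L) / (V t : L) ^ q = ((x t : L) / (V t : L) ^ q - 1) + 1 := by ring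
        rw [h6]
        refine ((av _).add_le _ _).trans ?_
        rw [map_one]
        linarith
      have h6 := pow_sub_le (av (Sum.inl v0 : Pl L)) (R := 2) (by norm_num) h5
        (show av (Sum.inl v0 : Pl L) (1 : L) ≤ 2 by rw [map_one]; norm_num) i
      rw [one_pow] at h6
      rw [if_pos heq, mul_assoc, mono_eq heq.le, heq, Nat.sub_self, pow_zero, mul_one]
      have h7 : (((F t).coeff (mm i j) : ℤ) : L) * ((x t : L) / (V t : L) ^ q) ^ i -
          (((F t).coeff (mm i j) : ℤ) : L) =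
          (((F t).coeff (mm i j) : ℤ) : L) * (((x t : L) / (V t : L) ^ q) ^ i - 1) := by ring
      rw [h7, map_mul, av_inf]
      have h8 : (i : ℝ) * 2 ^ i + 1 ≤ Real.exp (c / 4 * H t) := by
        have h9 : 0 < (i : ℝ) * 2 ^ i + 1 := by positivity
        rw [div_le_iff₀ (by positivity)] at h4
        rw [← Real.exp_log h9]
        exact Real.exp_le_exp.2 (by linarith)
      calc |(((F t).coeff (mm i j) : ℤ) : ℝ)| *
            av (Sum.inl v0 : Pl L) (((x t : L) / (V t : L) ^ q) ^ i - 1) ≤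
          Real.exp (c / 4 * H t) * (Real.exp (c / 4 * H t) * Real.exp (-(c * H t))) := by
            refine mul_le_mul ((hF2 t _).trans h2) (h6.trans ?_) ((av _).nonneg _)
              (Real.exp_pos _).le
            exact mul_le_mul (by linarith) h1a ((av _).nonneg _) (Real.exp_pos _).le
        _ = Real.exp (-(c / 2 * H t)) := by
            rw [← Real.exp_add, ← Real.exp_add]
            congr 1
            ring
    · -- above the line
      have hF0 : ∀ t, (F t).coeff (mm i j) = 0 := by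
        intro t
        by_contra h
        have h1 := hF1 t _ h
        rw [mm_zero, mm_one] at h1
        omega
      refine Eventually.of_forall fun t => ?_
      rw [hF0, if_neg hgt.ne', Int.cast_zero, zero_mul, zero_mul, sub_zero, map_zero]
      exact (Real.exp_pos _).le
  have hall : ∀ᶠ t in (𝓕 : Filter ℕ), ∀ i ∈ Finset.range (p + 1), av (Sum.inl v0 : Pl L)
      ((((F t).coeff (mm i j) : ℤ) : L) * (x t : L) ^ i * (((V t : L) ^ p)⁻¹) ^ (q - j) -
        ((if q * i + p * j = p * q then (F t).coeff (mm i j) else 0 : ℤ) : L)) ≤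
        Real.exp (-(c / 2 * H t)) := by
    rw [Filter.eventually_all_finset]
    exact hterm
  filter_upwards [hall, hH_le hH (Real.log ((p : ℝ) + 1) / (c / 4))] with t h1 h2
  have h3 : (∑ i ∈ Finset.range (p + 1), (((F t).coeff (mm i j) : ℤ) : L) * (x t : L) ^ i) *
        (((V t : L) ^ p)⁻¹) ^ (q - j) -
        ((∑ i ∈ Finset.range (p + 1), if q * i + p * j = p * q then (F t).coeff (mm i j)
          else 0 : ℤ) : L) =
      ∑ i ∈ Finset.range (p + 1), ((((F t).coeff (mm i j) : ℤ) : L) * (x t : L) ^ i *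
        (((V t : L) ^ p)⁻¹) ^ (q - j) -
        ((if q * i + p * j = p * q then (F t).coeff (mm i j) else 0 : ℤ) : L)) := by
    rw [Finset.sum_sub_distrib, Finset.sum_mul]
    congr 1
    rw [Int.cast_sum]
  rw [h3]
  refine ((av _).sum_le _ _).trans ((Finset.sum_le_sum h1).trans ?_)
  rw [Finset.sum_const, Finset.card_range, nsmul_eq_mul]
  have h4 : ((p + 1 : ℕ) : ℝ) ≤ Real.exp (c / 4 * H t) := by
    rw [div_le_iff₀ (by positivity)] at h2
    have h5 : (0 : ℝ) < (p : ℝ) + 1 := by positivity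
    push_cast
    rw [← Real.exp_log h5]
    exact Real.exp_le_exp.2 (by linarith)
  calc ((p + 1 : ℕ) : ℝ) * Real.exp (-(c / 2 * H t)) ≤
      Real.exp (c / 4 * H t) * Real.exp (-(c / 2 * H t)) :=
        mul_le_mul_of_nonneg_right h4 (Real.exp_pos _).le
    _ = Real.exp (-(c / 4 * H t)) := by
        rw [← Real.exp_add]
        congr 1
        ring

end Pool.Agent.Run7.h28.EC
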