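import Mathlib
import Pool.Agent.Run7.h28.EC.Near

/-!
# Project EC (helper28): the roots of the top form
-/

set_option autoImplicit false
set_option linter.unusedSectionVars false

open Filter Topology

namespace Pool.Agent.Run7.h28.EC

open NumberField IsDedekindDomain Height Module
open Pool.Agent.W180.OP (Pl av wt nrm le_nrm nrm_pos wt_nonneg exists_nrm nrm_nonneg)
open Pool.Agent.N750
open Pool.Agent.Run7.h28.HK

/-- the height of a root of a monic polynomial with integer coefficients -/
lemma ht_root {L : Type} [Field L] [NumberField L] {q : ℕ} (hq : 0 < q) (c : ℕ → ℤ) (B : ℝ)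
    (hB : 1 ≤ B) (hc : ∀ j < q, |(c j : ℝ)| ≤ B) (ρ : L)
    (h : ρ ^ q + ∑ j ∈ Finset.range q, (c j : L) * ρ ^ j = 0) :
    logHeight₁ ρ ≤ finrank ℚ L * Real.log (q * B) := by
  have hq1 : (1 : ℝ) ≤ q := by exact_mod_cast hq
  have hqB : 1 ≤ (q : ℝ) * B := one_le_mul_of_one_le_of_one_le hq1 hB
  have key : ∀ p : Pl L, av p ρ ≤ N750.cst (q * B) p := by
    intro p
    by_contra hcon
    push Not at hcon
    have hρ1 : 1 ≤ av p ρ := (one_le_cst hqB p).trans hcon.le
    have h1 : ρ ^ q = -∑ j ∈ Finset.range q, (c j : L) * ρ ^ j := by linear_combination h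
    have h2 : av p (∑ j ∈ Finset.range q, (c j : L) * ρ ^ j) ≤
        N750.cst (q : ℝ) p * (N750.cst B p * av p ρ ^ (q - 1)) := by
      refine av_sum p _ _ _ ?_ (fun j hj => ?_) _ (by rw [Finset.card_range])
      · exact mul_nonneg (cst_pos (by linarith) p).le (pow_nonneg ((av p).nonneg _) _)
      · have hj' := Finset.mem_range.1 hj
        rw [map_mul, map_pow]
        refine mul_le_mul ?_ (pow_le_pow_right₀ hρ1 (by omega))
          (pow_nonneg ((av p).nonneg _) _) (cst_pos (by linarith) p).le
        rcases p with w | v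
        · rw [av_inf]
          exact hc j hj'
        · exact av_int v _
    have h3 : av p ρ ^ q ≤ N750.cst (q * B) p * av p ρ ^ (q - 1) := by
      rw [← map_pow, h1, map_neg_eq_map]
      refine h2.trans (le_of_eq ?_)
      rw [← mul_assoc, cst_mul]
    have h4 : av p ρ ^ q = av p ρ * av p ρ ^ (q - 1) := by
      rw [← pow_succ']
      congr 1
      omega
    rw [h4] at h3
    have h5 := le_of_mul_le_mul_right h3 (pow_pos (by linarith) _)
    linarith
  have hx : (![ρ, 1] : Fin 2 → L) ≠ 0 := fun h => one_ne_zero (congrFun h 1)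
  have hy : (fun _ : Fin 1 => (1 : L)) ≠ 0 := fun h => one_ne_zero (congrFun h 0)
  have h1 := ht_le (![ρ, 1]) (fun _ : Fin 1 => (1 : L)) hx hy (q * B) hqB (by
      intro p
      have h2 : nrm (av p) (fun _ : Fin 1 => (1 : L)) = 1 := by
        unfold nrm
        rw [ciSup_const, map_one]
      rw [h2, mul_one]
      obtain ⟨j, hj⟩ := exists_nrm (av p) (by norm_num : 0 < 2) (![ρ, 1])
      rw [← hj]
      have h4 : av p (1 : L) ≤ N750.cst (q * B) p := by
        rw [map_one]
        exact one_le_cst hqB p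
      fin_cases j
      · exact key p
      · exact h4)
  have h2 : logHeight (fun _ : Fin 1 => (1 : L)) = 0 :=
    Height.logHeight_eq_zero_of_subsingleton _
  rw [h2, zero_add] at h1
  rwa [logHeight₁_eq_logHeight]

/-- an enumeration of the roots -/
lemma enum_roots {L : Type} [Field L] (E : Polynomial L) (hE : E.Monic) {q : ℕ}
    (hdeg : E.natDegree = q) (hs : E.Separable) (hsp : E.Splits) :
    ∃ ρ : Fin q → L, Function.Injective ρ ∧ (∀ Y, E.eval Y = ∏ i, (Y - ρ i)) ∧
      ∀ i, E.derivative.eval (ρ i) ≠ 0 := by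
  classical
  have hE0 : E ≠ 0 := hE.ne_zero
  obtain ⟨A, hA⟩ : ∃ A : Finset L, A = E.roots.toFinset := ⟨_, rfl⟩
  have hnd : E.roots.Nodup := Polynomial.nodup_roots hs
  have hcard : A.card = q := by
    rw [hA, Multiset.toFinset_card_of_nodup hnd, ← hsp.natDegree_eq_card_roots, hdeg]
  have hprod : ∀ Y, E.eval Y = ∏ ρ ∈ A, (Y - ρ) := by
    intro Y
    rw [hsp.eval_eq_prod_roots_of_monic hE, hA, Finset.prod_multiset_map_count]
    refine Finset.prod_congr rfl fun ρ hρ => ?_
    rw [Multiset.count_eq_one_of_mem hnd (Multiset.mem_toFinset.1 hρ), pow_one]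
  let e := A.equivFinOfCardEq hcard
  refine ⟨fun i => (e.symm i).1, fun i j hij => e.symm.injective (Subtype.ext hij), fun Y => ?_,
    fun i => ?_⟩
  · rw [hprod, ← Finset.prod_coe_sort A]
    exact (Equiv.prod_comp e.symm (fun z : A => Y - z.1)).symm
  · have h1 := hs.aeval_derivative_ne_zero (x := (e.symm i).1) (by
      rw [Polynomial.coe_aeval_eq_eval, hprod]
      exact Finset.prod_eq_zero (e.symm i).2 (sub_self _))
    rwa [Polynomial.coe_aeval_eq_eval] at h1

/-- the part of weighted degree `p q`, for the weights `q` of `x` and `p` of `y` -/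
noncomputable def whc (p q : ℕ) (F : MvPolynomial (Fin 2) ℤ) : MvPolynomial (Fin 2) ℤ :=
  MvPolynomial.weightedHomogeneousComponent ![q, p] (p * q) F

lemma whc_coeff (p q : ℕ) (F : MvPolynomial (Fin 2) ℤ) (m : Fin 2 →₀ ℕ) :
    (whc p q F).coeff m = if q * m 0 + p * m 1 = p * q then F.coeff m else 0 := by
  classical
  unfold whc
  rw [MvPolynomial.coeff_weightedHomogeneousComponent]
  have h1 : Finsupp.weight ![q, p] m = q * m 0 + p * m 1 := by
    rw [Finsupp.weight_apply, Finsupp.sum_fintype _ _ (by simp), Fin.sum_univ_two]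
    simp [mul_comm]
  rw [h1]

end Pool.Agent.Run7.h28.EC
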