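import Mathlib
import Pool.Agent.Run7.h28.EC.Top
import Pool.Agent.Run7.h28.EC.Param

/-!
# Project EC (helper28): integer points with sparse abscissa on plane curves
-/

set_option autoImplicit false
set_option linter.unusedSectionVars false

open Filter Topology

namespace Pool.Agent.Run7.h28.EC

open NumberField IsDedekindDomain Height Module
open Pool.Agent.W180.OP (Pl av wt nrm le_nrm nrm_pos wt_nonneg exists_nrm nrm_nonneg)
open Pool.Agent.N750
open Pool.Agent.Run7.h28.HK

/-- curves of weighted degree `p q`, monic in the ordinate, whose top form is separable and splits over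
`K` -/
structure Crv (p q : ℕ) (K : Type) [Field K] [NumberField K] (M : ℝ)
    (F : MvPolynomial (Fin 2) ℤ) : Prop where
  bd : ∀ m, |((F.coeff m : ℤ) : ℝ)| ≤ M
  deg : ∀ m, F.coeff m ≠ 0 → q * m 0 + p * m 1 ≤ p * q
  lead : F.coeff (Finsupp.single 1 q) = 1
  sep : (topP (whc p q F)).Separable
  spl : ((topP (whc p q F)).map (algebraMap ℚ K)).Splits

section curve

variable {p q : ℕ} (hp : 0 < p) (hq : 0 < q) {K : Type} [Field K] [NumberField K]
  {M : ℝ} {F : MvPolynomial (Fin 2) ℤ} (hF : Crv p q K M F)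
include hF

lemma Crv.one_le : 1 ≤ M := by
  have h := hF.bd (Finsupp.single 1 q)
  rw [hF.lead, Int.cast_one, abs_one] at h
  exact h

omit hF in
lemma whc_line (p q : ℕ) (F : MvPolynomial (Fin 2) ℤ) (m : Fin 2 →₀ ℕ)
    (hm : (whc p q F).coeff m ≠ 0) : q * m 0 + p * m 1 = p * q := by
  by_contra h
  rw [whc_coeff, if_neg h] at hm
  exact hm rfl

lemma Crv.lead' : (whc p q F).coeff (Finsupp.single 1 q) = 1 := by
  rw [whc_coeff, if_pos, hF.lead]
  simp

include hp hq

lemma Crv.box (m : Fin 2 →₀ ℕ) (hm : F.coeff m ≠ 0) : m ∈ EC.box p q := by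
  have h := hF.deg m hm
  rw [mem_box]
  constructor
  · by_contra h1
    push Not at h1
    have h2 : q * p < q * m 0 := Nat.mul_lt_mul_of_pos_left h1 hq
    rw [mul_comm q p] at h2
    omega
  · by_contra h1
    push Not at h1
    have h2 : p * q < p * m 1 := Nat.mul_lt_mul_of_pos_left h1 hp
    omega

omit hp in
lemma Crv.leadc (i : ℕ) : F.coeff (mm i q) = if i = 0 then 1 else 0 := by
  split_ifs with h
  · rw [h]
    have h2 : mm 0 q = Finsupp.single 1 q := by simp [mm]
    rw [h2, hF.lead]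
  · by_contra h2
    have h3 := hF.deg _ h2
    rw [mm_zero, mm_one] at h3
    have h4 : 0 < q * i := Nat.mul_pos hq (Nat.pos_of_ne_zero h)
    omega

omit hF in
/-- the coefficients of the top polynomial are integers -/
lemma top_coeff' (F : MvPolynomial (Fin 2) ℤ) (j : ℕ) (hj : j ≤ q) :
    (topP (whc p q F)).coeff j = ((∑ i ∈ Finset.range (p + 1),
      if q * i + p * j = p * q then F.coeff (mm i j) else 0 : ℤ) : ℚ) := by
  rw [top_coeff hp hq (whc_line p q F), if_pos (Finset.mem_range.2 (by omega))]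
  congr 1
  refine Finset.sum_congr rfl fun i _ => ?_
  rw [whc_coeff, mm_zero, mm_one]

omit hp hq in
lemma Crv.sum_bd (j : ℕ) : |((∑ i ∈ Finset.range (p + 1),
      if q * i + p * j = p * q then F.coeff (mm i j) else 0 : ℤ) : ℝ)| ≤ (p + 1) * M := by
  have hM := hF.one_le
  push_cast
  refine (Finset.abs_sum_le_sum_abs _ _).trans ?_
  have h1 : ∀ i ∈ Finset.range (p + 1),
      |(if q * i + p * j = p * q then ((F.coeff (mm i j) : ℤ) : ℝ) else 0)| ≤ M := by
    intro i _
    split_ifs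
    · exact hF.bd _
    · rw [abs_zero]
      linarith
  refine (Finset.sum_le_sum h1).trans (le_of_eq ?_)
  rw [Finset.sum_const, Finset.card_range, nsmul_eq_mul]
  push_cast
  ring

end curve

/-- **Integer points with sparse abscissa.** -/
theorem main {K : Type} [Field K] [NumberField K] (φ : K →+* ℂ) (Γ : Subgroup Kˣ) (hΓ : Γ.FG)
    (p q k : ℕ) (hp : 0 < p) (hq : 0 < q) (B δ : ℝ) (hδ : 0 < δ) :
    ∃ C : ℝ, 0 < C ∧ ∀ (M : ℝ) (F : MvPolynomial (Fin 2) ℤ), Crv p q K M F →
      ∀ (v : Γ) (u : Fin k → Γ) (a : Fin k → K) (x y : ℤ),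
      (∀ j, mulHeight₁ (a j) ≤ M) → (x : K) = ((v : Kˣ) : K) + ∑ j, a j * ((u j : Kˣ) : K) →
      mulHeight₁ ((v : Kˣ) : K) ≤ M * (|(x : ℝ)| + 1) ^ B →
      ‖φ ((x : K) - ((v : Kˣ) : K))‖ ≤ M * |(x : ℝ)| ^ (1 - δ) →
      MvPolynomial.eval ![x, y] F = 0 →
      max |(x : ℝ)| |(y : ℝ)| ≤ (C * M) ^ C ∨
      ∃ X Y : LaurentPolynomial ℂ, (¬ ∃ c, X = LaurentPolynomial.C c) ∧
        LaurentPolynomial.eval₂ (RingHom.id ℂ) 1 X = x ∧
        LaurentPolynomial.eval₂ (RingHom.id ℂ) 1 Y = y ∧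
        MvPolynomial.aeval ![X, Y] F = 0 := by
  classical
  by_contra hcon
  push Not at hcon
  choose M F hF v u a x y ha hx hv hgap hzero hbig hno using
    fun t : ℕ => hcon (Real.exp 1 * ((t : ℝ) + 1)) (by positivity)
  have hM : ∀ t, 1 ≤ M t := fun t => (hF t).one_le
  obtain ⟨T, hT⟩ := hΓ
  obtain ⟨L, hfd, hgal, -, ψ, hψ, hroot⟩ := exists_L φ T q hq
  have hNF : NumberField L := ⟨⟩
  obtain ⟨Δ, hΔ, hΔσ, hpow⟩ := exists_Gal ψ T q hroot
  rw [hT] at hpow
  obtain ⟨S, hS, hΔS⟩ := exists_S Δ hΔ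
  obtain ⟨d, hd, -, hdh⟩ := ht_hom ψ
  obtain ⟨H, hHdef⟩ : ∃ H : ℕ → ℝ, H = fun t => Real.log (max |(x t : ℝ)| |(y t : ℝ)|) := ⟨_, rfl⟩
  have hbigt : ∀ t : ℕ, ((t : ℝ) + 1) * (1 + Real.log (M t)) < H t ∧
      0 < max |(x t : ℝ)| |(y t : ℝ)| := by
    intro t
    have h1 := hbig t
    have hMt := hM t
    have h2 : 0 < Real.exp 1 * ((t : ℝ) + 1) * M t := by positivity
    have h3 : 0 < max |(x t : ℝ)| |(y t : ℝ)| := (Real.rpow_pos_of_pos h2 _).trans h1
    refine ⟨?_, h3⟩
    have h4 := Real.log_lt_log (Real.rpow_pos_of_pos h2 _) h1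
    rw [Real.log_rpow h2, Real.log_mul (by positivity) (by linarith),
      Real.log_mul (Real.exp_pos _).ne' (by positivity), Real.log_exp] at h4
    rw [hHdef]
    refine lt_of_le_of_lt ?_ h4
    have h5 : 0 ≤ Real.log ((t : ℝ) + 1) := Real.log_nonneg (by
      have : (0 : ℝ) ≤ t := Nat.cast_nonneg t
      linarith)
    have h6 : 0 ≤ Real.log (M t) := Real.log_nonneg hMt
    have h7 : (1 : ℝ) ≤ Real.exp 1 := Real.one_le_exp zero_le_one
    have h8 : ((t : ℝ) + 1) ≤ Real.exp 1 * ((t : ℝ) + 1) :=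
      le_mul_of_one_le_left (by positivity) h7
    exact mul_le_mul h8 (by linarith) (by linarith) (by positivity)
  have hvio : Vio p q 1 F M x y H :=
    { hp := hp
      hq := hq
      hMΦ := le_rfl
      hM := hM
      hexp := fun t => by rw [hHdef]; exact Real.exp_log (hbigt t).2
      hbig := fun t => (hbigt t).1
      hbox := fun t m hm => (hF t).box hp hq m hm
      hlead := fun t i => (hF t).leadc hq i
      hcoef := fun t m => by rw [one_mul]; exact (hF t).bd m
      hzero := hzero }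
  obtain ⟨𝓕, h𝓕⟩ : ∃ 𝓕 : Ultrafilter ℕ, (𝓕 : Filter ℕ) ≤ atTop :=
    ⟨Filter.hyperfilter ℕ, Nat.hyperfilter_le_atTop⟩
  have hH := hvio.hL.mono_left h𝓕
  choose V hV1 hV2 using fun t => hpow _ (v t).2
  choose W hW1 hW2 using fun t j => hpow _ (u t j).2
  have hV3 : ∀ t, (V t : L) ^ q = ψ ((v t : Kˣ) : K) := fun t => by
    have h1 := congrArg Units.val (hV2 t)
    rw [Units.val_pow_eq_pow_val] at h1
    exact h1
  have hneg : ∀ ε' : ℝ, 0 < ε' → ∀ᶠ t in (𝓕 : Filter ℕ), 1 + Real.log (M t) ≤ ε' * H t :=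
    fun ε' hε' => (hvio.negl hε').filter_mono h𝓕
  obtain ⟨v0, hv0⟩ : ∃ v0 : InfinitePlace L, v0 = InfinitePlace.mk (L.val : L →+* ℂ) := ⟨_, rfl⟩
  -- the representation of the abscissa
  have hxrep : ∀ t, (x t : L) = (V t : L) ^ q + ∑ j, ψ (a t j) * ((W t j ^ q : Lˣ) : L) := by
    intro t
    have h1 := congrArg ψ (hx t)
    rw [map_intCast, map_add, map_sum] at h1
    rw [h1, hV3]
    congr 1
    refine Finset.sum_congr rfl fun j _ => ?_
    rw [map_mul]
    congr 1
    exact congrArg Units.val (hW2 t j).symm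
  have hacoef : ∀ j, Slow 𝓕 H (fun t => ψ (a t j)) := fun j =>
    hvio.slow h𝓕 hd.le fun t => by
      rw [hdh]
      refine mul_le_mul_of_nonneg_left ?_ hd.le
      rw [logHeight₁_eq_log_mulHeight₁]
      have h1 := Real.log_le_log (mulHeight₁_pos (a t j)) (ha t j)
      linarith
  have hxm : Mdr 𝓕 H (fun t => (x t : L)) := mdr_int hvio.hL0 hvio.hxle
  have hym : Mdr 𝓕 H (fun t => (y t : L)) := mdr_int hvio.hL0 hvio.hyle
  have hmul : ∀ a b : Gm 𝓕 L, PG 𝓕 H Δ a → PG 𝓕 H Δ b → PG 𝓕 H Δ (a * b) := fun _ _ => PG.mul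
  have hxsp : Sp (slowF 𝓕 L H hH) (PG 𝓕 H Δ) (mk 𝓕 (fun t => (x t : L))) := by
    refine hb_pg hH S hS Δ hΔS (k := k + 1) (Fin.cons (fun _ => 1) (fun j t => ψ (a t j)))
      (Fin.cons (fun t => V t ^ q) (fun j t => W t j ^ q)) _ hxm (fun i => ?_) (fun i t => ?_)
      (Eventually.of_forall fun t => ?_)
    · refine Fin.cases ?_ (fun j => ?_) i
      · exact slow_const hH 1
      · exact hacoef j
    · refine Fin.cases ?_ (fun j => ?_) i
      · exact Δ.pow_mem (hV1 t) _
      · exact Δ.pow_mem (hW1 t j) _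
    · rw [Fin.sum_univ_succ, hxrep t]
      simp only [Fin.cons_zero, Fin.cons_succ, one_mul, Units.val_pow_eq_pow_val]
  -- the leading term is moderate
  have hVm : Mdr 𝓕 H (fun t => (V t : L)) := by
    refine ⟨d * (1 + |B| * 2), ?_⟩
    filter_upwards [hneg 1 one_pos, hH_le hH (Real.log 2)] with t h1 h2
    have h3 : logHeight₁ (V t : L) ≤ logHeight₁ ((V t : L) ^ q) := by
      rw [logHeight₁_pow]
      have h4 := zero_le_logHeight₁ (V t : L)
      have h5 : (1 : ℝ) ≤ q := by exact_mod_cast hq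
      exact le_mul_of_one_le_left h4 h5
    refine h3.trans ?_
    rw [hV3, hdh, mul_assoc]
    refine mul_le_mul_of_nonneg_left ?_ hd.le
    rw [logHeight₁_eq_log_mulHeight₁]
    have hx1 : (1 : ℝ) ≤ |(x t : ℝ)| + 1 := by linarith [abs_nonneg (x t : ℝ)]
    have h4 := Real.log_le_log (mulHeight₁_pos _) (hv t)
    rw [Real.log_mul (by linarith [hM t]) (by positivity), Real.log_rpow (by linarith)] at h4
    have h5 : Real.log (|(x t : ℝ)| + 1) ≤ 2 * H t := by
      have h6 : |(x t : ℝ)| + 1 ≤ 2 * Real.exp (H t) := by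
        have h7 := hvio.hxle t
        have h8 := Real.one_le_exp (hvio.hL0 t)
        linarith
      have h7 := Real.log_le_log (by linarith) h6
      rw [Real.log_mul (by norm_num) (Real.exp_pos _).ne', Real.log_exp] at h7
      linarith
    have h6 : 0 ≤ Real.log (|(x t : ℝ)| + 1) := Real.log_nonneg hx1
    have h7 : B * Real.log (|(x t : ℝ)| + 1) ≤ |B| * (2 * H t) :=
      (mul_le_mul_of_nonneg_right (le_abs_self B) h6).trans
        (mul_le_mul_of_nonneg_left h5 (abs_nonneg B))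
    have h8 := hvio.hlM t
    rw [one_mul] at h1
    nlinarith
  -- the gap
  have hgap' : ∀ t, av (Sum.inl v0 : Pl L) ((x t : L) - (V t : L) ^ q) ≤
      M t * |(x t : ℝ)| ^ (1 - δ) := by
    intro t
    refine le_trans (le_of_eq ?_) (hgap t)
    have h5 : (x t : L) - (V t : L) ^ q = ψ ((x t : K) - ((v t : Kˣ) : K)) := by
      rw [hV3, map_sub, map_intCast]
    rw [h5, hv0]
    show ‖((ψ ((x t : K) - ((v t : Kˣ) : K)) : L) : ℂ)‖ = _
    rw [hψ]
  obtain ⟨c, hc, hcl⟩ := gap_bounds hH v0 hp hq δ hδ M hM hneg x (hvio.large.filter_mono h𝓕) V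
    hgap'
  -- the top polynomials
  obtain ⟨E, hE⟩ : ∃ E : ℕ → Polynomial L,
      E = fun t => (topP (whc p q (F t))).map (algebraMap ℚ L) := ⟨_, rfl⟩
  have htm : ∀ t, (topP (whc p q (F t))).Monic := fun t =>
    top_monic hp hq (whc_line p q (F t)) (hF t).lead'
  have hEmon : ∀ t, (E t).Monic := fun t => by rw [hE]; exact (htm t).map _
  have hEdeg : ∀ t, (E t).natDegree = q := fun t => by
    rw [hE]
    simp only
    rw [(htm t).natDegree_map, top_natDegree hp hq (whc_line p q (F t)) (hF t).lead']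
  have hEsep : ∀ t, (E t).Separable := fun t => by rw [hE]; exact (hF t).sep.map
  have hEspl : ∀ t, (E t).Splits := fun t => by
    have h1 := (hF t).spl.map ψ
    rw [Polynomial.map_map] at h1
    have h2 : ψ.comp (algebraMap ℚ K) = algebraMap ℚ L := Subsingleton.elim _ _
    rw [h2] at h1
    rw [hE]
    exact h1
  obtain ⟨cc, hcc⟩ : ∃ cc : ℕ → ℕ → ℤ, cc = fun t j => ∑ i ∈ Finset.range (p + 1),
      if q * i + p * j = p * q then (F t).coeff (mm i j) else 0 := ⟨_, rfl⟩
  have hEcoef : ∀ t j, j ≤ q → (E t).coeff j = ((cc t j : ℤ) : L) := by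
    intro t j hj
    rw [hE, hcc]
    simp only
    rw [Polynomial.coeff_map, top_coeff' hp hq (F t) j hj, map_intCast]
  have hccbd : ∀ t j, |((cc t j : ℤ) : ℝ)| ≤ (p + 1) * M t := fun t j => by
    rw [hcc]
    exact (hF t).sum_bd j
  have hq' : (1 : ℝ) ≤ q := by exact_mod_cast hq
  have hp1 : (1 : ℝ) ≤ (p : ℝ) + 1 := by
    have : (0 : ℝ) ≤ p := Nat.cast_nonneg p
    linarith
  have hlogc : ∀ t, Real.log (q * ((p + 1) * M t)) ≤
      (1 + Real.log (q * (p + 1))) * (1 + Real.log (M t)) := by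
    intro t
    have hMt := hM t
    have h1 : (q : ℝ) * ((p + 1) * M t) = (q * (p + 1)) * M t := by ring
    rw [h1, Real.log_mul (by positivity) (by linarith)]
    have h2 : 0 ≤ Real.log (q * ((p : ℝ) + 1)) :=
      Real.log_nonneg (one_le_mul_of_one_le_of_one_le hq' hp1)
    have h3 := Real.log_nonneg hMt
    nlinarith
  have hlogc0 : 0 ≤ (finrank ℚ L : ℝ) * (1 + Real.log (q * (p + 1))) := by
    have h2 : 0 ≤ Real.log (q * ((p : ℝ) + 1)) :=
      Real.log_nonneg (one_le_mul_of_one_le_of_one_le hq' hp1)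
    positivity
  have hEs : ∀ j, Slow 𝓕 H (fun t => (E t).coeff j) := by
    intro j
    rcases le_or_gt j q with hj | hj
    · have h1 : (fun t => (E t).coeff j) = fun t => ((cc t j : ℤ) : L) :=
        funext fun t => hEcoef t j hj
      rw [h1]
      refine hvio.slow h𝓕 hlogc0 fun t => ?_
      refine (ht_int _).trans ?_
      rw [mul_assoc]
      refine mul_le_mul_of_nonneg_left ?_ (Nat.cast_nonneg _)
      have hMt := hM t
      refine (Real.log_le_log (by positivity) ?_).trans (hlogc t)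
      have h2 : (p + 1) * M t ≤ q * ((p + 1) * M t) := le_mul_of_one_le_left (by positivity) hq'
      refine max_le ?_ ((hccbd t j).trans h2)
      exact one_le_mul_of_one_le_of_one_le hq' (one_le_mul_of_one_le_of_one_le hp1 hMt)
    · have h1 : (fun t => (E t).coeff j) = fun _ => (0 : L) := funext fun t =>
        Polynomial.coeff_eq_zero_of_natDegree_lt (by rw [hEdeg]; exact hj)
      rw [h1]
      exact slow_const hH 0
  choose r hr1 hr2 hr3 using fun t => enum_roots (E t) (hEmon t) (hEdeg t) (hEsep t) (hEspl t)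
  have hrs : ∀ i, Slow 𝓕 H (fun t => r t i) := by
    intro i
    refine hvio.slow h𝓕 hlogc0 fun t => ?_
    have hMt := hM t
    have h0 : (E t).eval (r t i) = 0 := by
      rw [hr2]
      exact Finset.prod_eq_zero (Finset.mem_univ i) (sub_self _)
    refine (ht_root hq (cc t) ((p + 1) * M t) (one_le_mul_of_one_le_of_one_le hp1 hMt)
      (fun j _ => hccbd t j) (r t i) ?_).trans ?_
    · rw [Polynomial.eval_eq_sum_range, hEdeg, Finset.sum_range_succ] at h0
      have h3 : (E t).coeff q = 1 := by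
        have h4 := (hEmon t).coeff_natDegree
        rwa [hEdeg] at h4
      rw [h3, one_mul] at h0
      rw [← h0, add_comm]
      congr 1
      refine Finset.sum_congr rfl fun j hj => ?_
      rw [hEcoef t j (Finset.mem_range.1 hj).le]
    · rw [mul_assoc]
      exact mul_le_mul_of_nonneg_left (hlogc t) (Nat.cast_nonneg _)
  obtain ⟨A, hA⟩ : ∃ A : ℕ → ℕ → L, A = fun j t => ∑ i ∈ Finset.range (p + 1),
      (((F t).coeff (mm i j) : ℤ) : L) * (x t : L) ^ i := ⟨_, rfl⟩
  have hysp : Sp (slowF 𝓕 L H hH) (PU 𝓕 H S) (mk 𝓕 (fun t => (y t : L))) := by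
    refine core hH Δ hΔσ S hS hΔS v0 hq E hEmon hEdeg hEs (fun i t => r t i) hrs hr2
      (fun t i j hij h => hij (hr1 t h)) hr3
      (fun t => V t ^ p) (fun t => Δ.pow_mem (hV1 t) _) (by
        simpa only [Units.val_pow_eq_pow_val] using hVm.pow p) A ?_ y hym ?_ (c / 4)
      (by positivity) ?_
    · intro j _
      have h1 : A j = ∑ i ∈ Finset.range (p + 1), (fun t => (((F t).coeff (mm i j) : ℤ) : L)) *
          (fun t => (x t : L)) ^ i := by
        funext t
        rw [hA, Finset.sum_apply]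
        rfl
      rw [h1, map_sum]
      refine Sp.sum _ _ fun i _ => ?_
      rw [map_mul, map_pow]
      exact Sp.smul (mk_slow.2 (hvio.slow_coef h𝓕 _)) (Sp.pow PG.one hmul hxsp _)
    · refine Eventually.of_forall fun t => ?_
      rw [hA]
      exact expand (R := L) (F t) (hvio.hbox t) (hvio.hlead t) (x t) (y t) (hzero t)
    · intro j hj
      have h1 : ∀ t, (E t).coeff j = ((cc t j : ℤ) : L) := fun t => hEcoef t j hj.le
      simp only [h1]
      rw [hA, hcc]
      exact coef_close hH v0 M hM hneg F (fun t => (hF t).deg)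
        (fun t => (hF t).bd) x V c hc hcl j
  -- the parametrisation
  obtain ⟨Z, hZ1, hZ2, hZ3⟩ := param hH S hS (N := 2) ![fun t => (x t : L), fun t => (y t : L)]
    (fun i => by
      fin_cases i
      · exact Sp.mono (PG.toPU hΔS) hxsp
      · exact hysp) (p + q) (by omega) ℂ (L.val : L →+* ℂ)
  have hxns : ¬ Slow 𝓕 H (fun t => (x t : L)) := by
    intro hs
    have hp' : (0 : ℝ) < p := by exact_mod_cast hp
    obtain ⟨t, h1, h2, h3⟩ := ((slow_le hs (Sum.inl v0 : Pl L)
      (show (0 : ℝ) < 1 / (4 * p) by positivity)).and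
      ((hvio.large.filter_mono h𝓕).and (hH_le hH 1))).exists
    rw [av_inf] at h1
    have h4 := Real.exp_le_exp.1 (h2.trans h1)
    have h5 : H t / (2 * p) = 2 * (1 / (4 * p) * H t) := by
      field_simp
      ring
    have h6 : 0 < 1 / (4 * (p : ℝ)) * H t := by
      have : 0 < H t := by linarith
      positivity
    linarith
  have hz3 := hZ3 (box p q) (fun m t => (((F t).coeff m : ℤ) : L))
    (fun m _ => hvio.slow_coef h𝓕 m) (fun m hm => by
      rw [mem_box] at hm
      rw [Fin.sum_univ_two]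
      omega) (Eventually.of_forall fun t => by
      have h1 := hzero t
      have h' : MvPolynomial.aeval (![x t, y t] : Fin 2 → ℤ) (F t) = (0 : ℤ) := by
        rw [← h1, ← MvPolynomial.coe_aeval_eq_eval]
        rfl
      rw [aeval_box (R := ℤ) (F t) (hvio.hbox t)] at h'
      have h2 := congrArg (Int.cast : ℤ → L) h'
      push_cast at h2
      rw [← h2]
      refine Finset.sum_congr rfl fun m _ => ?_
      rw [Fin.prod_univ_two, Fin.prod_univ_two]
      rfl)
  obtain ⟨t, h1, h2, h3, h4⟩ := ((hZ1 0).and ((hZ1 1).and ((hZ2 0 hxns).and hz3))).exists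
  refine hno t (Z 0 t) (Z 1 t) (fun c hc => h3 ⟨c, hc⟩) ?_ ?_ ?_
  · rw [h1]
    show (L.val : L →+* ℂ) ((x t : ℤ) : L) = _
    rw [map_intCast]
  · rw [h2]
    show (L.val : L →+* ℂ) ((y t : ℤ) : L) = _
    rw [map_intCast]
  · rw [aeval_box (F t) (hvio.hbox t), ← h4]
    refine Finset.sum_congr rfl fun m _ => ?_
    rw [map_intCast, map_intCast]
    congr 1

end Pool.Agent.Run7.h28.EC
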